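import Pool.Agent.Helper556.OM

/-!
Structured programs on stacks, their big-step semantics with exact cost, and the compilation
to control states.
-/

namespace Pool.Agent.Helper556.OM

abbrev St : Type := ℕ → List Bool

inductive Cmd : Type
  | skip : Cmd
  | push (r : ℕ) (b : Bool) : Cmd
  | pop (r : ℕ) : Cmd
  | seq (p q : Cmd) : Cmd
  | br (r : ℕ) (pn pf pt : Cmd) : Cmd
  | ask (r : ℕ) (pt pf : Cmd) : Cmd
  | loop (r : ℕ) (p : Cmd) : Cmd

inductive Ev (A : Set (List Bool)) : Cmd → St → St → ℕ → Prop
  | skip (s : St) : Ev A .skip s s 1
  | push (r : ℕ) (b : Bool) (s : St) : Ev A (.push r b) s (Function.update s r (b :: s r)) 1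
  | pop (r : ℕ) (s : St) : Ev A (.pop r) s (Function.update s r (s r).tail) 1
  | seq {p q : Cmd} {s s' s'' : St} {t t' : ℕ} : Ev A p s s' t → Ev A q s' s'' t' →
      Ev A (.seq p q) s s'' (t + t')
  | brn {r : ℕ} {pn pf pt : Cmd} {s s' : St} {t : ℕ} : (s r).head? = none → Ev A pn s s' t →
      Ev A (.br r pn pf pt) s s' (t + 1)
  | brf {r : ℕ} {pn pf pt : Cmd} {s s' : St} {t : ℕ} : (s r).head? = some false →
      Ev A pf s s' t → Ev A (.br r pn pf pt) s s' (t + 1)
  | brt {r : ℕ} {pn pf pt : Cmd} {s s' : St} {t : ℕ} : (s r).head? = some true →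
      Ev A pt s s' t → Ev A (.br r pn pf pt) s s' (t + 1)
  | askt {r : ℕ} {pt pf : Cmd} {s s' : St} {t : ℕ} : s r ∈ A → Ev A pt s s' t →
      Ev A (.ask r pt pf) s s' (t + 1)
  | askf {r : ℕ} {pt pf : Cmd} {s s' : St} {t : ℕ} : s r ∉ A → Ev A pf s s' t →
      Ev A (.ask r pt pf) s s' (t + 1)
  | loopn {r : ℕ} {p : Cmd} {s : St} : s r = [] → Ev A (.loop r p) s s 1
  | loopc {r : ℕ} {p : Cmd} {s s' s'' : St} {t t' : ℕ} : s r ≠ [] → Ev A p s s' t →
      Ev A (.loop r p) s' s'' t' → Ev A (.loop r p) s s'' (t + t' + 1)

/-- control states of the compiled program -/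
def CC : Cmd → Type
  | .skip => Unit
  | .push _ _ => Unit
  | .pop _ => Unit
  | .seq p q => CC p ⊕ CC q
  | .br _ p q r => Option (CC p ⊕ (CC q ⊕ CC r))
  | .ask _ p q => Option (CC p ⊕ CC q)
  | .loop _ p => Option (CC p)

theorem CC.finite : ∀ c : Cmd, Finite (CC c)
  | .skip => inferInstanceAs (Finite Unit)
  | .push _ _ => inferInstanceAs (Finite Unit)
  | .pop _ => inferInstanceAs (Finite Unit)
  | .seq p q => by
      have := CC.finite p
      have := CC.finite q
      exact inferInstanceAs (Finite (CC p ⊕ CC q))
  | .br _ p q r => by
      have := CC.finite p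
      have := CC.finite q
      have := CC.finite r
      exact inferInstanceAs (Finite (Option (CC p ⊕ (CC q ⊕ CC r))))
  | .ask _ p q => by
      have := CC.finite p
      have := CC.finite q
      exact inferInstanceAs (Finite (Option (CC p ⊕ CC q)))
  | .loop _ p => by
      have := CC.finite p
      exact inferInstanceAs (Finite (Option (CC p)))

def CC.start : (c : Cmd) → CC c
  | .skip => ()
  | .push _ _ => ()
  | .pop _ => ()
  | .seq p _ => Sum.inl (CC.start p)
  | .br _ _ _ _ => none
  | .ask _ _ _ => none
  | .loop _ _ => none

/-- the actions of the compiled program, in a machine with control states `Q` -/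
def CC.act : (c : Cmd) → {Q : Type} → (CC c → Q) → Q → CC c → Act Q
  | .skip, _, _, ex, _ => .read 0 (fun _ => ex)
  | .push r b, _, _, ex, _ => .push r b ex
  | .pop r, _, _, ex, _ => .pop r ex
  | .seq p q, _, em, ex, s =>
      match s with
      | Sum.inl s => CC.act p (fun a => em (Sum.inl a)) (em (Sum.inr (CC.start q))) s
      | Sum.inr s => CC.act q (fun a => em (Sum.inr a)) ex s
  | .br r p q u, _, em, ex, s =>
      match s with
      | none => .read r (fun o =>
          match o with
          | none => em (some (Sum.inl (CC.start p)))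
          | some false => em (some (Sum.inr (Sum.inl (CC.start q))))
          | some true => em (some (Sum.inr (Sum.inr (CC.start u)))))
      | some (Sum.inl s) => CC.act p (fun a => em (some (Sum.inl a))) ex s
      | some (Sum.inr (Sum.inl s)) => CC.act q (fun a => em (some (Sum.inr (Sum.inl a)))) ex s
      | some (Sum.inr (Sum.inr s)) => CC.act u (fun a => em (some (Sum.inr (Sum.inr a)))) ex s
  | .ask r p q, _, em, ex, s =>
      match s with
      | none => .ask r (fun o =>
          match o with
          | true => em (some (Sum.inl (CC.start p)))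
          | false => em (some (Sum.inr (CC.start q))))
      | some (Sum.inl s) => CC.act p (fun a => em (some (Sum.inl a))) ex s
      | some (Sum.inr s) => CC.act q (fun a => em (some (Sum.inr a))) ex s
  | .loop r p, _, em, ex, s =>
      match s with
      | none => .read r (fun o =>
          match o with
          | none => ex
          | some _ => em (some (CC.start p)))
      | some s => CC.act p (fun a => em (some a)) (em none) s

theorem Machine.run_add (M : Machine) (A : Set (List Bool)) : ∀ (t t' : ℕ) (w : ℕ → Bool)
    (c : M.Config), M.run A (t + t') w c = M.run A t' (fun i => w (i + t)) (M.run A t w c)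
  | 0, t', w, c => by simp [Machine.run]
  | t + 1, t', w, c => by
      have h : t + 1 + t' = (t + t') + 1 := by omega
      rw [h, Machine.run, Machine.run, Machine.run_add M A t t']
      congr 1

theorem Machine.run_one (M : Machine) (A : Set (List Bool)) (w : ℕ → Bool)
    (c : M.Config) : M.run A 1 w c = M.step A (w 0) c := rfl

theorem compile_correct (M : Machine) (A : Set (List Bool)) {c : Cmd} {s s' : St} {t : ℕ}
    (h : Ev A c s s' t) : ∀ (em : CC c → M.Q) (ex : M.Q)
    (_ : ∀ a, M.act (em a) = CC.act c em ex a) (w : ℕ → Bool),
    M.run A t w (em (CC.start c), s) = (ex, s') := by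
  induction h with
  | skip s =>
      intro em ex hem w
      rw [Machine.run_one, Machine.step]
      simp only [hem, CC.act]
  | push r b s =>
      intro em ex hem w
      rw [Machine.run_one, Machine.step]
      simp only [hem, CC.act]
  | pop r s =>
      intro em ex hem w
      rw [Machine.run_one, Machine.step]
      simp only [hem, CC.act]
  | @seq p q s s' s'' t t' hp hq ihp ihq =>
      intro em ex hem w
      rw [Machine.run_add]
      have h1 := ihp (fun a => em (Sum.inl a)) (em (Sum.inr (CC.start q)))
        (fun a => hem (Sum.inl a)) w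
      have h2 := ihq (fun a => em (Sum.inr a)) ex (fun a => hem (Sum.inr a))
        (fun i => w (i + t))
      rw [show em (CC.start (p.seq q)) = em (Sum.inl (CC.start p)) from rfl, h1, h2]
  | @brn r pn pf pt s s' t h0 hp ih =>
      intro em ex hem w
      rw [add_comm, Machine.run_add, Machine.run_one, Machine.step]
      have h1 := ih (fun a => em (some (Sum.inl a))) ex (fun a => hem (some (Sum.inl a)))
        (fun i => w (i + 1))
      rw [show em (CC.start (Cmd.br r pn pf pt)) = em none from rfl]
      simp only [hem, CC.act, h0]
      exact h1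
  | @brf r pn pf pt s s' t h0 hp ih =>
      intro em ex hem w
      rw [add_comm, Machine.run_add, Machine.run_one, Machine.step]
      have h1 := ih (fun a => em (some (Sum.inr (Sum.inl a)))) ex
        (fun a => hem (some (Sum.inr (Sum.inl a)))) (fun i => w (i + 1))
      rw [show em (CC.start (Cmd.br r pn pf pt)) = em none from rfl]
      simp only [hem, CC.act, h0]
      exact h1
  | @brt r pn pf pt s s' t h0 hp ih =>
      intro em ex hem w
      rw [add_comm, Machine.run_add, Machine.run_one, Machine.step]
      have h1 := ih (fun a => em (some (Sum.inr (Sum.inr a)))) ex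
        (fun a => hem (some (Sum.inr (Sum.inr a)))) (fun i => w (i + 1))
      rw [show em (CC.start (Cmd.br r pn pf pt)) = em none from rfl]
      simp only [hem, CC.act, h0]
      exact h1
  | @askt r pt pf s s' t h0 hp ih =>
      intro em ex hem w
      rw [add_comm, Machine.run_add, Machine.run_one, Machine.step]
      have h1 := ih (fun a => em (some (Sum.inl a))) ex (fun a => hem (some (Sum.inl a)))
        (fun i => w (i + 1))
      rw [show em (CC.start (Cmd.ask r pt pf)) = em none from rfl]
      simp only [hem, CC.act, h0, decide_true]
      exact h1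
  | @askf r pt pf s s' t h0 hp ih =>
      intro em ex hem w
      rw [add_comm, Machine.run_add, Machine.run_one, Machine.step]
      have h1 := ih (fun a => em (some (Sum.inr a))) ex (fun a => hem (some (Sum.inr a)))
        (fun i => w (i + 1))
      rw [show em (CC.start (Cmd.ask r pt pf)) = em none from rfl]
      simp only [hem, CC.act, h0, decide_false]
      exact h1
  | @loopn r p s h0 =>
      intro em ex hem w
      rw [Machine.run_one, Machine.step]
      rw [show em (CC.start (Cmd.loop r p)) = em none from rfl]
      simp only [hem, CC.act, h0, List.head?_nil]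
  | @loopc r p s s' s'' t t' h0 hp hl ihp ihl =>
      intro em ex hem w
      have e : t + t' + 1 = 1 + (t + t') := by omega
      rw [e, Machine.run_add, Machine.run_one, Machine.step]
      rw [show em (CC.start (Cmd.loop r p)) = em none from rfl]
      obtain ⟨b, l, hbl⟩ := List.exists_cons_of_ne_nil h0
      simp only [hem, CC.act, hbl, List.head?_cons]
      rw [Machine.run_add]
      have h1 := ihp (fun a => em (some a)) (em none) (fun a => hem (some a))
        (fun i => w (i + 1))
      rw [h1]
      exact ihl em ex hem _

end Pool.Agent.Helper556.OM
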