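import Pool.Agent.Helper556.Test

/-!
Digits of codes of vectors, and the correctness of the brute force test.
-/

namespace Pool.Agent.Helper556.OM

open Function

variable {A : Set (List Bool)}

theorem dgt_lt {q : ℕ} (hq : 1 ≤ q) (n i : ℕ) : dgt q n i < q := Nat.mod_lt _ hq

theorem dgt_zero_of_lt {q n i : ℕ} (h : n < q ^ i) : dgt q n i = 0 := by
  rw [dgt, Nat.div_eq_of_lt h, Nat.zero_mod]

theorem dgt_zero (q n : ℕ) : dgt q n 0 = n % q := by simp [dgt]

theorem dgt_succ (q n i : ℕ) : dgt q n (i + 1) = dgt q (n / q) i := by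
  simp only [dgt]
  rw [pow_succ', Nat.div_div_eq_div_mul]

theorem dgt_ext {q : ℕ} (hq : 2 ≤ q) : ∀ (N n m : ℕ), n < q ^ N → m < q ^ N →
    (∀ i, dgt q n i = dgt q m i) → n = m
  | 0, n, m, hn, hm, _ => by
      rw [pow_zero] at hn hm
      omega
  | N + 1, n, m, hn, hm, h => by
      have h1 : n / q = m / q := by
        apply dgt_ext hq N
        · apply Nat.div_lt_of_lt_mul
          rwa [← pow_succ']
        · apply Nat.div_lt_of_lt_mul
          rwa [← pow_succ']
        · intro i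
          rw [← dgt_succ, ← dgt_succ, h]
      have h2 := h 0
      rw [dgt_zero, dgt_zero] at h2
      rw [← Nat.div_add_mod n q, ← Nat.div_add_mod m q, h1, h2]

theorem dgt_inj {q : ℕ} (hq : 2 ≤ q) {n m : ℕ} (h : ∀ i, dgt q n i = dgt q m i) : n = m := by
  have hlt : ∀ x, x < q ^ x := fun x => Nat.lt_pow_self (by omega)
  have h1 : q ^ n ≤ q ^ max n m := Nat.pow_le_pow_right (by omega) (le_max_left _ _)
  have h2 : q ^ m ≤ q ^ max n m := Nat.pow_le_pow_right (by omega) (le_max_right _ _)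
  exact dgt_ext hq (max n m) n m ((hlt n).trans_le h1) ((hlt m).trans_le h2) h

theorem sum_lt {q : ℕ} (hq : 1 ≤ q) : ∀ (N : ℕ) (a : ℕ → ℕ), (∀ i, a i < q) →
    ∑ i ∈ Finset.range N, a i * q ^ i < q ^ N
  | 0, a, _ => by simp
  | N + 1, a, ha => by
      rw [Finset.sum_range_succ]
      have h1 := sum_lt hq N a ha
      have h2 : a N + 1 ≤ q := ha N
      have h3 : (a N + 1) * q ^ N ≤ q * q ^ N := Nat.mul_le_mul_right _ h2
      rw [pow_succ']
      have h4 : (a N + 1) * q ^ N = a N * q ^ N + q ^ N := by ring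
      omega

theorem dgt_sum {q : ℕ} (hq : 1 ≤ q) : ∀ (N : ℕ) (a : ℕ → ℕ), (∀ i, a i < q) → ∀ i,
    dgt q (∑ j ∈ Finset.range N, a j * q ^ j) i = if i < N then a i else 0
  | 0, a, _, i => by simp [dgt]
  | N + 1, a, ha, i => by
      rw [Finset.sum_range_succ']
      have e : ∑ j ∈ Finset.range N, a (j + 1) * q ^ (j + 1) + a 0 * q ^ 0
          = q * (∑ j ∈ Finset.range N, a (j + 1) * q ^ j) + a 0 := by
        rw [Finset.mul_sum, pow_zero, mul_one]
        congr 1
        apply Finset.sum_congr rfl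
        intro j _
        rw [pow_succ]; ring
      rw [e]
      cases i with
      | zero =>
          rw [dgt_zero, Nat.mul_add_mod, Nat.mod_eq_of_lt (ha 0), if_pos (by omega)]
      | succ i =>
          rw [dgt_succ, Nat.mul_add_div (by omega), Nat.div_eq_of_lt (ha 0), Nat.add_zero,
            dgt_sum hq N (fun j => a (j + 1)) (fun j => ha (j + 1)) i]
          split_ifs <;> first | rfl | omega

/-! ### codes -/

section

variable {F : Type} [Field F] [Fintype F] (φ : F ≃ Fin (Fintype.card F))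

theorem two_le_card : 2 ≤ Fintype.card F := Fintype.one_lt_card

theorem φ_eq_zero (h0 : (φ 0 : ℕ) = 0) (x : F) : (φ x : ℕ) = 0 ↔ x = 0 := by
  constructor
  · intro h
    apply φ.injective
    apply Fin.ext
    rw [h, h0]
  · rintro rfl
    exact h0

theorem code_eq (h0 : (φ 0 : ℕ) = 0) (v : ℕ →₀ F) {N : ℕ} (hN : ∀ i, N ≤ i → v i = 0) :
    code φ v = ∑ i ∈ Finset.range N, (φ (v i) : ℕ) * Fintype.card F ^ i := by
  rw [code]
  apply Finset.sum_subset
  · intro i hi
    rw [Finsupp.mem_support_iff] at hi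
    rw [Finset.mem_range]
    by_contra h
    exact hi (hN i (by omega))
  · intro i _ hi
    rw [Finsupp.notMem_support_iff] at hi
    rw [hi, h0, Nat.zero_mul]

omit [Fintype F] in
theorem exists_bound (v : ℕ →₀ F) : ∃ N, ∀ i, N ≤ i → v i = 0 := by
  refine ⟨v.support.sup id + 1, fun i hi => ?_⟩
  rw [← Finsupp.notMem_support_iff]
  intro h
  have := Finset.le_sup (f := id) h
  simp only [id] at this
  omega

theorem dgt_code (h0 : (φ 0 : ℕ) = 0) (v : ℕ →₀ F) (i : ℕ) :
    dgt (Fintype.card F) (code φ v) i = φ (v i) := by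
  obtain ⟨N, hN⟩ := exists_bound v
  have hq := two_le_card (F := F)
  rw [code_eq φ h0 v hN, dgt_sum (by omega) N (fun i => (φ (v i) : ℕ)) (fun i => (φ (v i)).2)]
  split_ifs with h
  · rfl
  · rw [hN i (by omega), h0]

theorem code_inj (h0 : (φ 0 : ℕ) = 0) {v w : ℕ →₀ F} (h : code φ v = code φ w) : v = w := by
  ext i
  apply φ.injective
  apply Fin.ext
  rw [← dgt_code φ h0 v i, ← dgt_code φ h0 w i, h]

theorem exists_code (h0 : (φ 0 : ℕ) = 0) (n : ℕ) : ∃ v : ℕ →₀ F, code φ v = n := by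
  have hq := two_le_card (F := F)
  have hq1 : 1 ≤ Fintype.card F := by omega
  set g : ℕ → F := fun i => φ.symm ⟨dgt (Fintype.card F) n i, dgt_lt hq1 n i⟩ with hg
  have hfin : ∀ i, g i ≠ 0 → i ∈ Finset.range n := by
    intro i hi
    rw [Finset.mem_range]
    by_contra h
    apply hi
    rw [← φ_eq_zero φ h0]
    simp only [hg, Equiv.apply_symm_apply]
    apply dgt_zero_of_lt
    calc n ≤ i := by omega
      _ < _ := Nat.lt_pow_self (by omega)
  refine ⟨Finsupp.onFinset (Finset.range n) g hfin, ?_⟩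
  apply dgt_inj hq
  intro i
  rw [dgt_code φ h0, Finsupp.onFinset_apply]
  simp only [hg, Equiv.apply_symm_apply]

theorem pow_le_code (h0 : (φ 0 : ℕ) = 0) {v : ℕ →₀ F} {i : ℕ} (h : v i ≠ 0) :
    Fintype.card F ^ i ≤ code φ v := by
  by_contra hlt
  have h1 := dgt_code φ h0 v i
  rw [dgt_zero_of_lt (by omega)] at h1
  exact h ((φ_eq_zero φ h0 _).1 h1.symm)

theorem code_lt (h0 : (φ 0 : ℕ) = 0) {v : ℕ →₀ F} {N : ℕ} (h : ∀ i, N ≤ i → v i = 0) :
    code φ v < Fintype.card F ^ N := by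
  have hq := two_le_card (F := F)
  rw [code_eq φ h0 v h]
  exact sum_lt (by omega) N _ (fun i => (φ (v i)).2)

theorem un_inj {n m : ℕ} (h : un n = un m) : n = m := by
  rw [← un_length n, h, un_length]

theorem mem_codes (h0 : (φ 0 : ℕ) = 0) (S : Submodule F (ℕ →₀ F)) (v : ℕ →₀ F) :
    un (code φ v) ∈ codes φ S ↔ v ∈ S := by
  constructor
  · rintro ⟨w, hw, h⟩
    have := un_inj h
    rwa [code_inj φ h0 this]
  · intro h
    exact ⟨v, h, rfl⟩

end

/-! ### correctness of the brute force test -/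

theorem run_congr (M : Machine) : ∀ (t : ℕ) (w w' : ℕ → Bool) (c : M.Config),
    (∀ i < t, w i = w' i) → M.run A t w c = M.run A t w' c
  | 0, _, _, _, _ => rfl
  | t + 1, w, w', c, h => by
      rw [Machine.run, Machine.run, h 0 (by omega)]
      exact run_congr M t _ _ _ (fun i hi => h (i + 1) (by omega))

theorem exists_num (t : ℕ) (w : ℕ → Bool) : ∃ z < 2 ^ t, ∀ i < t, z.testBit i = w i := by
  refine ⟨Nat.ofBits (fun i : Fin t => w i), Nat.ofBits_lt_two_pow _, fun i hi => ?_⟩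
  rw [Nat.testBit_ofBits_lt _ _ hi]

theorem KT_iff (M : Machine) (d : ℕ) (L : Set (List Bool))
    (hL : ∀ x : List Bool, x ∈ L ↔
      ∃ w : ℕ → Bool, M.Accepts (M.run A (x.length ^ d + d) w (M.init x)))
    {q : ℕ} (hq : 2 ≤ q) (a : ℕ) {n κ : ℕ} (hn : q ^ (2 * q ^ ((d + 1) * (κ + 1)) + a) ≤ n) :
    KT A M d q n κ ↔ ∀ n', q ^ κ ≤ n' → n' < q ^ (κ + 1) → un n' ∉ L := by
  have h1 : κ + 1 < q ^ ((d + 1) * (κ + 1)) :=
    calc κ + 1 ≤ (d + 1) * (κ + 1) := Nat.le_mul_of_pos_left _ (by omega)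
      _ < _ := Nat.lt_pow_self (by omega)
  have h2 : q ^ (κ + 1) ≤ n := by
    refine le_trans ?_ hn
    exact Nat.pow_le_pow_right (by omega) (by omega)
  have h3 : q ^ κ ≤ n := by
    refine le_trans ?_ h2
    exact Nat.pow_le_pow_right (by omega) (by omega)
  have e1 : tp q n κ = q ^ κ := min_eq_left (by omega)
  have e2 : tp q n (κ + 1) = q ^ (κ + 1) := min_eq_left (by omega)
  constructor
  · intro h n' hn1 hn2 hmem
    obtain ⟨w, hw⟩ := (hL _).1 hmem
    rw [un_length] at hw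
    obtain ⟨z, hz, hzw⟩ := exists_num (n' ^ d + d) w
    refine h n' (by omega) z ?_ ⟨by omega, by omega⟩ ?_
    · refine hz.trans_le (le_trans ?_ hn)
      calc 2 ^ (n' ^ d + d) ≤ q ^ (n' ^ d + d) := Nat.pow_le_pow_left hq _
        _ ≤ _ := Nat.pow_le_pow_right (by omega) ?_
      have h4 : n' ^ d ≤ q ^ ((d + 1) * (κ + 1)) := by
        calc n' ^ d ≤ (q ^ (κ + 1)) ^ d := Nat.pow_le_pow_left hn2.le d
          _ = q ^ ((κ + 1) * d) := by rw [pow_mul]
          _ ≤ _ := Nat.pow_le_pow_right (by omega) (by nlinarith)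
      have h5 : d ≤ q ^ ((d + 1) * (κ + 1)) := by
        have h6 : d ≤ (d + 1) * (κ + 1) := by nlinarith
        exact h6.trans (Nat.lt_pow_self (by omega)).le
      omega
    · unfold Acc
      rw [run_congr M _ _ w _ hzw]
      exact hw
  · intro h n' _ z _ hn' hacc
    rw [e1, e2] at hn'
    refine h n' hn'.1 hn'.2 ((hL _).2 ⟨fun i => z.testBit i, ?_⟩)
    rw [un_length]
    exact hacc

end Pool.Agent.Helper556.OM
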