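import Pool.Agent.Helper556.Vec

/-!
The subspace `W` and the nonexistence of simple subspaces.
-/

namespace Pool.Agent.Helper556.OM

open Function

variable {A : Set (List Bool)} {F : Type} [Field F] [Fintype F]

/-- the subspace `W` of all `m + L m` with `m` in `S` and `E` -/
noncomputable def Ws (S : Submodule F (ℕ →₀ F)) (d a b n0 : ℕ) : Submodule F (ℕ →₀ F) :=
  (S ⊓ E S (d + 1) a b n0).map (LinearMap.id + Lm F (d + 1) a (Nat.le_add_left 1 d))

section

variable (φ : F ≃ Fin (Fintype.card F)) (h0 : (φ 0 : ℕ) = 0) (S : Submodule F (ℕ →₀ F))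
  (M : Machine) (d : ℕ)
  (hM : ∀ (x : List Bool) (w : ℕ → Bool), M.Halted (M.run A (x.length ^ d + d) w (M.init x)))
  (hL : ∀ x : List Bool, x ∈ codes φ S ↔
      ∃ w : ℕ → Bool, M.Accepts (M.run A (x.length ^ d + d) w (M.init x)))
  (a b n0 : ℕ) (ha : a < 2) (hab : a + b = 1)

theorem mem_Ws (v : ℕ →₀ F) : v ∈ Ws S d a b n0 ↔ ∃ m ∈ S, m ∈ E S (d + 1) a b n0 ∧
    m + Lm F (d + 1) a (Nat.le_add_left 1 d) m = v := by
  rw [Ws, Submodule.mem_map]
  constructor
  · rintro ⟨m, ⟨h1, h2⟩, h3⟩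
    exact ⟨m, h1, h2, h3⟩
  · rintro ⟨m, h1, h2, h3⟩
    exact ⟨m, ⟨h1, h2⟩, h3⟩

include ha in
theorem idx_mod {i : ℕ} (hi : i ∈ idx S (d + 1) a b n0) : i % 2 = a := by
  obtain ⟨κ, -, -, -, rfl⟩ := hi
  exact fn_mod ha _ _ _

theorem idx_fn {κ : ℕ} (hi : fn (Fintype.card F) (d + 1) a κ ∈ idx S (d + 1) a b n0) :
    κ ∈ KV S ∧ κ % 2 = b ∧ n0 ≤ κ := by
  obtain ⟨κ', h1, h2, h3, h4⟩ := hi
  have := fn_inj (two_le_card (F := F)) (by omega) a h4
  subst this
  exact ⟨h1, h2, h3⟩

include hab in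
/-- the shift of a vector of `E` vanishes at the positions of parity `a` -/
theorem Lm_zero {m : ℕ →₀ F} (hm : m ∈ E S (d + 1) a b n0) {i : ℕ} (hi : i % 2 = a) :
    Lm F (d + 1) a (Nat.le_add_left 1 d) m i = 0 := by
  rw [Lm_apply]
  by_contra hne
  have h1 := (mem_E S (d + 1) a b n0 m).1 hm _ hne
  have h2 := (idx_fn S d a b n0 h1).2.1
  omega

include ha in
theorem E_zero {m : ℕ →₀ F} (hm : m ∈ E S (d + 1) a b n0) {i : ℕ} (hi : i % 2 ≠ a) :
    m i = 0 := by
  by_contra hne
  have h1 := (mem_E S (d + 1) a b n0 m).1 hm _ hne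
  exact hi (idx_mod S d a b n0 ha h1)

include h0 in
theorem aN_code (v : ℕ →₀ F) : aN (Fintype.card F) a (code φ v)
    = code φ (v.filter (fun i => i % 2 = a)) := by
  have hq := two_le_card (F := F)
  have hb : ∀ i, code φ v + 1 ≤ i → v i = 0 := by
    intro i hi
    by_contra hne
    have hn := pow_le_code φ h0 hne
    have hin : i < Fintype.card F ^ i := Nat.lt_pow_self (by omega)
    omega
  rw [code_eq φ h0 (v.filter (fun i => i % 2 = a)) (N := code φ v + 1), aN]
  · apply Finset.sum_congr rfl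
    intro i _
    rw [dgt_code φ h0, Finsupp.filter_apply]
    by_cases hi : i % 2 = a
    · rw [ind_true hi, one_mul, if_pos hi]
      by_cases hv : v i = 0
      · rw [hv, h0, zero_mul, zero_mul]
      · congr 1
        exact min_eq_left (by have := pow_le_code φ h0 hv; omega)
    · rw [ind_false hi, zero_mul, if_neg hi, h0, zero_mul]
  · intro i hi
    rw [Finsupp.filter_apply]
    split_ifs
    · exact hb i hi
    · rfl

include h0 hL ha hab

theorem WTest_iff (v : ℕ →₀ F) :
    (WTest A M d (Fintype.card F) (d + 1) a b n0 (code φ v) ∧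
      v.filter (fun i => i % 2 = a) ∈ S) ↔ v ∈ Ws S d a b n0 := by
  have hq := two_le_card (F := F)
  rw [mem_Ws]
  constructor
  · rintro ⟨⟨h1, h2⟩, h3⟩
    have hE : v.filter (fun i => i % 2 = a) ∈ E S (d + 1) a b n0 := by
      rw [mem_E]
      intro i hi
      rw [Finsupp.filter_apply] at hi
      split_ifs at hi with hp
      · have hn := pow_le_code φ h0 hi
        have hin : i < Fintype.card F ^ i := Nat.lt_pow_self (by omega)
        rw [← PT_iff φ h0 S M d hL a b n0 v hi]
        apply h1 i (by omega)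
        refine ⟨hp, ?_⟩
        rw [dgt_code φ h0, Ne, φ_eq_zero φ h0]
        exact hi
      · exact absurd rfl hi
    refine ⟨_, h3, hE, ?_⟩
    ext i
    rw [Finsupp.add_apply]
    by_cases hp : i % 2 = a
    · rw [Lm_zero S d a b n0 hab hE hp, add_zero, Finsupp.filter_apply, if_pos hp]
    · rw [Finsupp.filter_apply, if_neg hp, zero_add, Lm_apply, Finsupp.filter_apply,
        if_pos (fn_mod ha _ _ _)]
      by_cases hi : i < code φ v + 1
      · have h4 := h2 i hi (by omega)
        rw [dgt_ft hq, dgt_code φ h0, dgt_code φ h0] at h4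
        exact (φ.injective (Fin.ext h4)).symm
      · have hfi := fn_lt hq (show 1 ≤ d + 1 by omega) a i
        have hz : ∀ j, i ≤ j → v j = 0 := by
          intro j hj
          by_contra hne
          have hn := pow_le_code φ h0 hne
          have hin : j < Fintype.card F ^ j := Nat.lt_pow_self (by omega)
          omega
        rw [hz i (le_refl _), hz _ hfi.le]
  · rintro ⟨m, hm, hE, hv⟩
    have hva : ∀ i, i % 2 = a → v i = m i := by
      intro i hi
      rw [← hv, Finsupp.add_apply, Lm_zero S d a b n0 hab hE hi, add_zero]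
    have hvb : ∀ i, i % 2 = b → v i = m (fn (Fintype.card F) (d + 1) a i) := by
      intro i hi
      rw [← hv, Finsupp.add_apply, E_zero S d a b n0 ha hE (by omega), zero_add, Lm_apply]
    have hfil : v.filter (fun i => i % 2 = a) = m := by
      ext i
      rw [Finsupp.filter_apply]
      split_ifs with hp
      · exact hva i hp
      · exact (E_zero S d a b n0 ha hE hp).symm
    refine ⟨⟨?_, ?_⟩, ?_⟩
    · rintro i _ ⟨hp, hd⟩
      rw [dgt_code φ h0, Ne, φ_eq_zero φ h0] at hd
      rw [PT_iff φ h0 S M d hL a b n0 v hd]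
      rw [hva i hp] at hd
      exact (mem_E S (d + 1) a b n0 m).1 hE i hd
    · intro κ _ hκ
      rw [dgt_ft hq, dgt_code φ h0, dgt_code φ h0, hvb κ hκ, hva _ (fn_mod ha _ _ _)]
    · rw [hfil]
      exact hm

include hM in
theorem W_np : IsNP A φ (Ws S d a b n0) := by
  have hq := two_le_card (F := F)
  have hS : InNP A (codes φ S) := ⟨M, d, fun x => ⟨hM x, hL x⟩⟩
  have h1 := InNP.reduce (rW_u M d hM (q := Fintype.card F) (by omega) (d + 1) a b n0) hS
  have e : codes φ (Ws S d a b n0) = {x | ∃ n, x = un n ∧ ∃ a',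
      rW A M d (Fintype.card F) (d + 1) a b n0 n = a' + 1 ∧ un a' ∈ codes φ S} := by
    ext x
    constructor
    · rintro ⟨v, hv, rfl⟩
      obtain ⟨h2, h3⟩ := (WTest_iff φ h0 S M d hL a b n0 ha hab v).2 hv
      refine ⟨code φ v, rfl, aN (Fintype.card F) a (code φ v), ?_, ?_⟩
      · rw [rW, if_pos h2]
      · rw [aN_code φ h0, mem_codes φ h0]
        exact h3
    · rintro ⟨n, rfl, a', ha', hmem⟩
      obtain ⟨v, rfl⟩ := exists_code φ h0 n
      refine ⟨v, ?_, rfl⟩
      rw [rW] at ha'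
      split_ifs at ha' with h2
      have h3 : a' = aN (Fintype.card F) a (code φ v) := by omega
      rw [h3, aN_code φ h0, mem_codes φ h0] at hmem
      exact (WTest_iff φ h0 S M d hL a b n0 ha hab v).1 ⟨h2, hmem⟩
  rw [IsNP, e]
  exact h1

end

/-- Vectors with arbitrarily large codes make a set infinite. -/
theorem infinite_of_large (φ : F ≃ Fin (Fintype.card F)) (T : Set (ℕ →₀ F))
    (h : ∀ N, ∃ v ∈ T, N < code φ v) : T.Infinite := by
  have h1 : (code φ '' T).Infinite := by
    apply Set.infinite_of_forall_exists_gt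
    intro N
    obtain ⟨v, hv, hN⟩ := h N
    exact ⟨code φ v, ⟨v, hv, rfl⟩, hN⟩
  exact h1.of_image _

/-- In the tally representation no subspace is simple, whatever the oracle is. -/
theorem not_simple (φ : F ≃ Fin (Fintype.card F)) (h0 : (φ 0 : ℕ) = 0)
    (S : Submodule F (ℕ →₀ F)) : ¬ IsSimple A φ S := by
  rintro ⟨⟨M, d, hMd⟩, hcod, hmeet⟩
  have hM := fun x => (hMd x).1
  have hL := fun x => (hMd x).2
  have hq := two_le_card (F := F)
  have hK := KV_infinite hcod
  -- one parity class is infinite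
  obtain ⟨b, hb2, hKb⟩ : ∃ b < 2, {κ ∈ KV S | κ % 2 = b}.Infinite := by
    by_contra hcon
    push Not at hcon
    have h1 := hcon 0 (by omega)
    have h2 := hcon 1 (by omega)
    apply hK
    refine (h1.union h2).subset ?_
    intro κ hκ
    rcases Nat.mod_two_eq_zero_or_one κ with h | h
    · exact Or.inl ⟨hκ, h⟩
    · exact Or.inr ⟨hκ, h⟩
  obtain ⟨a, ha, hab⟩ : ∃ a < 2, a + b = 1 := ⟨1 - b, by omega, by omega⟩
  -- the subspaces `E` are infinite
  have hEinf : ∀ n0, (E S (d + 1) a b n0 : Set (ℕ →₀ F)).Infinite := by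
    intro n0
    apply infinite_of_large φ
    intro N
    obtain ⟨κ, hκ, hκN⟩ := hKb.exists_gt (max n0 N)
    refine ⟨Finsupp.single (fn (Fintype.card F) (d + 1) a κ) 1, ?_, ?_⟩
    · rw [SetLike.mem_coe, mem_E]
      intro i hi
      rw [Finsupp.single_apply] at hi
      split_ifs at hi with he
      · exact ⟨κ, hκ.1, hκ.2, by omega, he.symm⟩
      · exact absurd rfl hi
    · have h1 : (Finsupp.single (fn (Fintype.card F) (d + 1) a κ) (1 : F))
          (fn (Fintype.card F) (d + 1) a κ) ≠ 0 := by simp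
      have h2 := pow_le_code φ h0 h1
      have h3 : fn (Fintype.card F) (d + 1) a κ <
        Fintype.card F ^ fn (Fintype.card F) (d + 1) a κ := Nat.lt_pow_self (by omega)
      have h4 := fn_lt hq (show 1 ≤ d + 1 by omega) a κ
      omega
  have hSE : ∀ n0, ∃ v ∈ E S (d + 1) a b n0, v ∈ S ∧ v ≠ 0 := fun n0 =>
    hmeet _ (E_np φ h0 S M d hM hL a b n0) (hEinf n0)
  -- `W` is infinite
  have hWinf : (Ws S d a b 0 : Set (ℕ →₀ F)).Infinite := by
    apply infinite_of_large φ
    intro N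
    obtain ⟨m, hmE, hmS, hm0⟩ := hSE (N + 1)
    have hmE0 : m ∈ E S (d + 1) a b 0 := by
      rw [mem_E] at hmE ⊢
      intro i hi
      obtain ⟨κ, h1, h2, _, h4⟩ := hmE i hi
      exact ⟨κ, h1, h2, Nat.zero_le _, h4⟩
    refine ⟨m + Lm F (d + 1) a (Nat.le_add_left 1 d) m, ?_, ?_⟩
    · rw [SetLike.mem_coe, mem_Ws]
      exact ⟨m, hmS, hmE0, rfl⟩
    · obtain ⟨i, hi⟩ : ∃ i, m i ≠ 0 := by
        by_contra hcon
        push Not at hcon
        exact hm0 (Finsupp.ext hcon)
      have hidx := (mem_E S (d + 1) a b (N + 1) m).1 hmE i hi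
      have hpar := idx_mod S d a b (N + 1) ha hidx
      obtain ⟨κ, h1, h2, h3, h4⟩ := hidx
      have h5 : (m + Lm F (d + 1) a (Nat.le_add_left 1 d) m) i ≠ 0 := by
        rw [Finsupp.add_apply, Lm_zero S d a b 0 hab hmE0 hpar, add_zero]
        exact hi
      have h6 := pow_le_code φ h0 h5
      have h7 : i < Fintype.card F ^ i := Nat.lt_pow_self (by omega)
      have h8 := fn_lt hq (show 1 ≤ d + 1 by omega) a κ
      omega
  obtain ⟨v, hvW, hvS, hv0⟩ := hmeet _ (W_np φ h0 S M d hM hL a b 0 ha hab) hWinf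
  rw [mem_Ws] at hvW
  obtain ⟨m, hmS, hmE, rfl⟩ := hvW
  have hLS : Lm F (d + 1) a (Nat.le_add_left 1 d) m ∈ S := by
    have := S.sub_mem hvS hmS
    rwa [add_sub_cancel_left] at this
  have hL0 : Lm F (d + 1) a (Nat.le_add_left 1 d) m = 0 := by
    apply eq_zero_of_KV hLS
    intro κ hκ
    rw [Lm_apply] at hκ
    exact (idx_fn S d a b 0 ((mem_E S (d + 1) a b 0 m).1 hmE _ hκ)).1
  apply hv0
  have hm0 : m = 0 := by
    ext i
    by_contra hne
    obtain ⟨κ, _, _, _, h4⟩ := (mem_E S (d + 1) a b 0 m).1 hmE i hne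
    apply hne
    rw [h4, ← Lm_apply (d + 1) a (Nat.le_add_left 1 d), hL0]
    rfl
  rw [hL0, hm0, add_zero]

end Pool.Agent.Helper556.OM
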