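import Mathlib

/-!
Nondeterministic oracle machines with finite control and stacks of bits, the class NP relative
to an oracle, and the subspaces of the tally vector space.
-/

namespace Pool.Agent.Helper556.OM

/-- What a nondeterministic oracle machine with set `Q` of control states does in a given
control state. The storage consists of stacks of bits, numbered by natural numbers (a work tape
is a pair of stacks). A control state touches at most one stack, so a machine with finitely
many control states uses finitely many stacks. -/
inductive Act (Q : Type) : Type
  /-- put the bit `b` on top of stack `k` and go to `q` -/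
  | push (k : ℕ) (b : Bool) (q : Q) : Act Q
  /-- remove the top bit of stack `k`, if there is one, and go to `q` -/
  | pop (k : ℕ) (q : Q) : Act Q
  /-- read the top bit of stack `k` (`none` if the stack is empty) and branch on it -/
  | read (k : ℕ) (q : Option Bool → Q) : Act Q
  /-- ask whether the string on stack `k` belongs to the oracle and branch on the answer -/
  | ask (k : ℕ) (q : Bool → Q) : Act Q
  /-- nondeterministic choice -/
  | guess (q : Bool → Q) : Act Q
  /-- halt and accept (`true`) or reject (`false`) -/
  | halt (acc : Bool) : Act Q

/-- A nondeterministic oracle machine: a finite set of control states, a start state, and for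
every control state the action done there. -/
structure Machine : Type 1 where
  /-- the control states -/
  Q : Type
  /-- there are finitely many of them -/
  fin : Finite Q
  /-- the start state -/
  start : Q
  /-- the action of every control state -/
  act : Q → Act Q

/-- A configuration: control state and contents of the stacks (top bit first). -/
abbrev Machine.Config (M : Machine) : Type := M.Q × (ℕ → List Bool)

open Classical in
/-- One step with oracle `A`, where `g` is the bit used if the step is a nondeterministic
choice. A halted machine stays as it is. -/
noncomputable def Machine.step (M : Machine) (A : Set (List Bool)) (g : Bool)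
    (c : M.Config) : M.Config :=
  match M.act c.1 with
  | .push k b q => (q, Function.update c.2 k (b :: c.2 k))
  | .pop k q => (q, Function.update c.2 k (c.2 k).tail)
  | .read k q => (q (c.2 k).head?, c.2)
  | .ask k q => (q (decide (c.2 k ∈ A)), c.2)
  | .guess q => (q g, c.2)
  | .halt _ => c

/-- The configuration after `t` steps from `c`, if the nondeterministic choices are made by
the bits `w 0, w 1, …` (one bit for every step). -/
noncomputable def Machine.run (M : Machine) (A : Set (List Bool)) :
    ℕ → (ℕ → Bool) → M.Config → M.Config
  | 0, _, c => c
  | t + 1, w, c => Machine.run M A t (fun i => w (i + 1)) (M.step A (w 0) c)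

/-- The initial configuration for the input string `x`: it is on stack `0`, all other stacks
are empty. -/
def Machine.init (M : Machine) (x : List Bool) : M.Config :=
  (M.start, fun k => if k = 0 then x else [])

/-- The configuration is a halting one. -/
def Machine.Halted (M : Machine) (c : M.Config) : Prop := ∃ b, M.act c.1 = .halt b

/-- The configuration is an accepting one. -/
def Machine.Accepts (M : Machine) (c : M.Config) : Prop := M.act c.1 = .halt true

/-- The class `NP` relative to the oracle `A`: some nondeterministic machine with oracle `A`
halts on every input `x` on all computation paths within `|x| ^ d + d` steps, and has an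
accepting path exactly for the members of the language. -/
def InNP (A : Set (List Bool)) (L : Set (List Bool)) : Prop :=
  ∃ (M : Machine) (d : ℕ), ∀ x : List Bool,
    (∀ w : ℕ → Bool, M.Halted (M.run A (x.length ^ d + d) w (M.init x))) ∧
    (x ∈ L ↔ ∃ w : ℕ → Bool, M.Accepts (M.run A (x.length ^ d + d) w (M.init x)))

section Tally

variable {F : Type} [Field F] [Fintype F]

/-- The code `∑ i, φ (v i) * q ^ i` of a vector `v = ∑ i, v i • e i`, where `q` is the number
of elements of `F`. The space with basis `e 0, e 1, …` is the space `ℕ →₀ F` of finitely
supported sequences. -/
def code (φ : F ≃ Fin (Fintype.card F)) (v : ℕ →₀ F) : ℕ :=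
  ∑ i ∈ v.support, (φ (v i) : ℕ) * Fintype.card F ^ i

/-- The set of tally codes of the vectors of a subspace. -/
def codes (φ : F ≃ Fin (Fintype.card F)) (S : Submodule F (ℕ →₀ F)) : Set (List Bool) :=
  {x | ∃ v ∈ S, x = List.replicate (code φ v) true}

/-- Subspaces whose set of tally codes is in `NP` relative to `A`. -/
def IsNP (A : Set (List Bool)) (φ : F ≃ Fin (Fintype.card F))
    (S : Submodule F (ℕ →₀ F)) : Prop :=
  InNP A (codes φ S)

/-- `NP^A`-simple subspaces: in `NP^A`, of infinite codimension, and meeting every infinite
`NP^A` subspace in a nonzero vector. -/
def IsSimple (A : Set (List Bool)) (φ : F ≃ Fin (Fintype.card F))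
    (S : Submodule F (ℕ →₀ F)) : Prop :=
  IsNP A φ S ∧ ¬ FiniteDimensional F ((ℕ →₀ F) ⧸ S) ∧
    ∀ W : Submodule F (ℕ →₀ F), IsNP A φ W → (W : Set (ℕ →₀ F)).Infinite →
      ∃ v ∈ W, v ∈ S ∧ v ≠ 0

/-- `NP^A`-supermaximal subspaces: in `NP^A`, of infinite codimension, and every `NP^A`
subspace `W` above is either everything or of finite dimension modulo the given one (the image
of `W` in the quotient space is `W / S`). -/
def IsSupermaximal (A : Set (List Bool)) (φ : F ≃ Fin (Fintype.card F))
    (S : Submodule F (ℕ →₀ F)) : Prop :=
  IsNP A φ S ∧ ¬ FiniteDimensional F ((ℕ →₀ F) ⧸ S) ∧
    ∀ W : Submodule F (ℕ →₀ F), IsNP A φ W → S ≤ W →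
      W = ⊤ ∨ FiniteDimensional F (W.map S.mkQ)

end Tally

end Pool.Agent.Helper556.OM
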