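import Pool.Agent.Helper556.Sim3

/-!
Closure of the tally part of relativized NP under polynomial time reductions.
-/

namespace Pool.Agent.Helper556.OM

open Function

variable {A : Set (List Bool)}

def Act.map {Q Q' : Type} (f : Q → Q') : Act Q → Act Q'
  | .push k b q => .push k b (f q)
  | .pop k q => .pop k (f q)
  | .read k q => .read k (fun o => f (q o))
  | .ask k q => .ask k (fun o => f (q o))
  | .guess q => .guess (fun o => f (q o))
  | .halt b => .halt b

/-- first run the program `P`, then reject if stack `0` is empty, otherwise remove one bit
from stack `0` and run the machine `M` -/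
def comb (P : Cmd) (M : Machine) : Machine where
  Q := CC P ⊕ Option (Option (Option M.Q))
  fin := by
    have := CC.finite P
    have := M.fin
    infer_instance
  start := Sum.inl (CC.start P)
  act := fun s =>
    match s with
    | Sum.inl s => CC.act P Sum.inl (Sum.inr none) s
    | Sum.inr none => .read 0 (fun o =>
        match o with
        | none => Sum.inr (some none)
        | some _ => Sum.inr (some (some none)))
    | Sum.inr (some none) => .halt false
    | Sum.inr (some (some none)) => .pop 0 (Sum.inr (some (some (some M.start))))
    | Sum.inr (some (some (some q))) => (M.act q).map (fun q => Sum.inr (some (some (some q))))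

def inQ (P : Cmd) (M : Machine) (q : M.Q) : (comb P M).Q := Sum.inr (some (some (some q)))

def popQ (P : Cmd) (M : Machine) : (comb P M).Q := Sum.inr (some (some none))

def rejQ (P : Cmd) (M : Machine) : (comb P M).Q := Sum.inr (some none)

def chkQ (P : Cmd) (M : Machine) : (comb P M).Q := Sum.inr none

def embC (P : Cmd) (M : Machine) (c : M.Config) : (comb P M).Config := (inQ P M c.1, c.2)

theorem comb_act_inQ (P : Cmd) (M : Machine) (q : M.Q) :
    (comb P M).act (inQ P M q) = (M.act q).map (inQ P M) := rfl

theorem comb_act_popQ (P : Cmd) (M : Machine) :
    (comb P M).act (popQ P M) = .pop 0 (inQ P M M.start) := rfl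

theorem comb_act_rejQ (P : Cmd) (M : Machine) :
    (comb P M).act (rejQ P M) = .halt false := rfl

def chkF (P : Cmd) (M : Machine) : Option Bool → (comb P M).Q
  | none => rejQ P M
  | some _ => popQ P M

theorem comb_act_chkQ (P : Cmd) (M : Machine) :
    (comb P M).act (chkQ P M) = .read 0 (chkF P M) := by
  have : chkF P M = (fun o => match o with
        | none => Sum.inr (some none)
        | some _ => Sum.inr (some (some none))) := by
    funext o
    cases o <;> rfl
  rw [this]
  rfl

theorem comb_step (P : Cmd) (M : Machine) (g : Bool) (c : M.Config) :
    (comb P M).step A g (embC P M c) = embC P M (M.step A g c) := by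
  have h := comb_act_inQ P M c.1
  have h' : (embC P M c).1 = inQ P M c.1 := rfl
  have h'' : (embC P M c).2 = c.2 := rfl
  unfold Machine.step
  rw [h', h'', h]
  cases hact : M.act c.1 <;> rfl

theorem comb_run (P : Cmd) (M : Machine) : ∀ (t : ℕ) (w : ℕ → Bool) (c : M.Config),
    (comb P M).run A t w (embC P M c) = embC P M (M.run A t w c)
  | 0, _, _ => rfl
  | t + 1, w, c => by
      rw [Machine.run, comb_step, Machine.run, comb_run P M t _ (M.step A (w 0) c)]

theorem comb_halted (P : Cmd) (M : Machine) (c : M.Config) :
    (comb P M).Halted (embC P M c) ↔ M.Halted c := by
  have h := comb_act_inQ P M c.1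
  have h' : (embC P M c).1 = inQ P M c.1 := rfl
  unfold Machine.Halted
  rw [h', h]
  constructor
  · rintro ⟨b, hb⟩
    refine ⟨b, ?_⟩
    cases hact : M.act c.1 <;> rw [hact] at hb <;> simp only [Act.map] at hb <;>
      first | (cases hb; rfl) | cases hb
  · rintro ⟨b, hb⟩
    exact ⟨b, by rw [hb]; rfl⟩

theorem comb_accepts (P : Cmd) (M : Machine) (c : M.Config) :
    (comb P M).Accepts (embC P M c) ↔ M.Accepts c := by
  have h := comb_act_inQ P M c.1
  have h' : (embC P M c).1 = inQ P M c.1 := rfl
  unfold Machine.Accepts
  rw [h', h]
  constructor
  · intro hb
    cases hact : M.act c.1 <;> rw [hact] at hb <;> simp only [Act.map] at hb <;>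
      first | (cases hb; rfl) | cases hb
  · intro hb
    rw [hb]; rfl

theorem run_mono (M : Machine) (w : ℕ → Bool) (c : M.Config) {t t' : ℕ} (h : t ≤ t')
    (hh : M.Halted (M.run A t w c)) : M.run A t' w c = M.run A t w c := by
  obtain ⟨s, rfl⟩ := Nat.exists_eq_add_of_le h
  rw [Machine.run_add, Machine.run_halted M _ hh]

theorem pow_bound (c : ℕ) : ∃ D : ℕ, ∀ n : ℕ, (n + 2) ^ c ≤ n ^ D + D := by
  refine ⟨2 * c + 3 ^ c, fun n => ?_⟩
  rcases Nat.lt_or_ge n 2 with h | h
  · calc (n + 2) ^ c ≤ 3 ^ c := Nat.pow_le_pow_left (by omega) c
      _ ≤ _ := by omega
  · have h1 : n + 2 ≤ n ^ 2 := by nlinarith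
    calc (n + 2) ^ c ≤ (n ^ 2) ^ c := Nat.pow_le_pow_left h1 c
      _ = n ^ (2 * c) := by rw [pow_mul]
      _ ≤ n ^ (2 * c + 3 ^ c) := Nat.pow_le_pow_right (by omega) (Nat.le_add_right _ _)
      _ ≤ _ := Nat.le_add_right _ _

/-- checking that the input is a unary number -/
def chk : Cmd :=
  .loop 0 (.br 0 .skip (.seq (.pop 0) (.push 2 true)) (.seq (.pop 0) (.push 1 true)))

theorem chk_ev (x : List Bool) : ∀ (i j : ℕ) (s : St),
    s = (fun k => if k = 0 then x else if k = 1 then un i else if k = 2 then un j else []) →
    EvB A chk s (fun k => if k = 1 then un (i + x.count true) else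
      if k = 2 then un (j + x.count false) else []) (5 * x.length + 1) := by
  induction x with
  | nil =>
      intro i j s hs
      have h : Ev A chk s s 1 := Ev.loopn (by rw [hs]; rfl)
      refine ⟨1, by simp, ?_⟩
      have e : s = (fun k => if k = 1 then un (i + List.count true []) else
        if k = 2 then un (j + List.count false []) else []) := by
        subst hs
        funext k
        simp only [List.count_nil, add_zero]
        split_ifs <;> first | rfl | contradiction | omega
      rw [← e]
      exact h
  | cons b x ih =>
      intro i j s hs
      cases b with
      | true =>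
          have p1 := EvB.pop (A := A) 0 s
          have p2 := EvB.push (A := A) 1 true (update s 0 (s 0).tail)
          have p3 := EvB.brt (A := A) (r := 0) (pn := .skip)
            (pf := .seq (.pop 0) (.push 2 true)) (s := s) (l := x) (by rw [hs]; rfl)
            (p1.seq p2)
          obtain ⟨t, ht, h1⟩ := p3
          have e : update (update s 0 (s 0).tail) 1 (true :: (update s 0 (s 0).tail) 1)
            = (fun k => if k = 0 then x else if k = 1 then un (i + 1) else
              if k = 2 then un j else []) := by
            subst hs
            funext k
            simp only [update_apply]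
            split_ifs <;> first | rfl | contradiction | omega
          obtain ⟨t', ht', h2⟩ := ih (i + 1) j _ e
          refine ⟨t + t' + 1, ?_, ?_⟩
          · simp only [List.length_cons]; omega
          · have h3 := Ev.loopc (A := A) (r := 0) (by rw [hs]; simp) h1 h2
            have e2 : (fun k => if k = 1 then un (i + 1 + List.count true x) else
              if k = 2 then un (j + List.count false x) else [])
              = (fun k => if k = 1 then un (i + List.count true (true :: x)) else
              if k = 2 then un (j + List.count false (true :: x)) else []) := by
              funext k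
              simp only [List.count_cons_self]
              rw [show i + 1 + List.count true x = i + (List.count true x + 1) by omega]
              rfl
            rw [e2] at h3
            exact h3
      | false =>
          have p1 := EvB.pop (A := A) 0 s
          have p2 := EvB.push (A := A) 2 true (update s 0 (s 0).tail)
          have p3 := EvB.brf (A := A) (r := 0) (pn := .skip)
            (pt := .seq (.pop 0) (.push 1 true)) (s := s) (l := x) (by rw [hs]; rfl)
            (p1.seq p2)
          obtain ⟨t, ht, h1⟩ := p3
          have e : update (update s 0 (s 0).tail) 2 (true :: (update s 0 (s 0).tail) 2)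
            = (fun k => if k = 0 then x else if k = 1 then un i else
              if k = 2 then un (j + 1) else []) := by
            subst hs
            funext k
            simp only [update_apply]
            split_ifs <;> first | rfl | contradiction | omega
          obtain ⟨t', ht', h2⟩ := ih i (j + 1) _ e
          refine ⟨t + t' + 1, ?_, ?_⟩
          · simp only [List.length_cons]; omega
          · have h3 := Ev.loopc (A := A) (r := 0) (by rw [hs]; simp) h1 h2
            have e2 : (fun k => if k = 1 then un (i + List.count true x) else
              if k = 2 then un (j + 1 + List.count false x) else [])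
              = (fun k => if k = 1 then un (i + List.count true (false :: x)) else
              if k = 2 then un (j + List.count false (false :: x)) else []) := by
              funext k
              simp only [List.count_cons_self]
              rw [show j + 1 + List.count false x = j + (List.count false x + 1) by omega]
              rfl
            rw [e2] at h3
            exact h3

theorem eq_un_of_count {x : List Bool} (h : x.count false = 0) : x = un x.length := by
  induction x with
  | nil => rfl
  | cons b x ih =>
      cases b with
      | false => simp at h
      | true =>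
          have h' : x.count false = 0 := by simpa using h
          rw [List.length_cons, un_succ, ← ih h']

theorem count_un (n : ℕ) : (un n).count true = n ∧ (un n).count false = 0 := by
  constructor
  · simp [un]
  · simp [un, List.count_replicate]

open Classical in
/-- a reduction from the tally language `L'` to the tally language `L` -/
theorem InNP.reduce {r : ℕ → ℕ} (hr : U A (fun v : Fin 1 → ℕ => r (v 0))) {L : Set (List Bool)}
    (hL : InNP A L) :
    InNP A {x | ∃ n, x = un n ∧ ∃ a, r n = a + 1 ∧ un a ∈ L} := by
  obtain ⟨Pr, T, hT, hPr⟩ := hr
  obtain ⟨M, d, hM⟩ := hL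
  set P : Cmd := .seq chk (.seq (.br 2 (Pr (fun _ => 1) 0 3) .skip .skip)
    (.seq (clear 1) (clear 2))) with hP
  set g : List Bool → ℕ := fun x => if x.count false = 0 then r x.length else 0 with hg
  have hprog : ∀ x : List Bool, EvB A P (fun k => if k = 0 then x else [])
      (fun k => if k = 0 then un (g x) else [])
      ((5 * x.length + 1) + ((T (fun _ => x.length) + 1 + 1) +
        ((2 * x.length + 1) + (2 * x.length + 1)))) := by
    intro x
    have h1 := chk_ev (A := A) x 0 0 (fun k => if k = 0 then x else []) (by
      funext k
      split_ifs <;> rfl)
    simp only [zero_add] at h1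
    by_cases hx : x.count false = 0
    · have hxu := eq_un_of_count hx
      have hct : x.count true = x.length := by
        conv_lhs => rw [hxu]
        exact (count_un _).1
      have h2 := (hPr (fun _ => x.length)).2 (fun _ => 1) 0 3 (fun _ => by omega) (by omega)
        (fun _ => by omega) (fun k => if k = 1 then un (x.count true) else
          if k = 2 then un (x.count false) else []) (fun i => by simp [hct]) (by simp)
        (fun k hk => by rw [if_neg (by omega), if_neg (by omega)])
      have h3 := EvB.brn (A := A) (r := 2) (pf := .skip) (pt := .skip) (by simp [hx]) h2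
      have h4 := clear_ev (A := A) 1 (update (fun k => if k = 1 then un (x.count true) else
          if k = 2 then un (x.count false) else []) 0 (un (r x.length)))
      have h5 := clear_ev (A := A) 2 (update (update (fun k => if k = 1 then un (x.count true) else
          if k = 2 then un (x.count false) else []) 0 (un (r x.length))) 1 [])
      have h6 := h1.seq (h3.seq (h4.seq h5))
      have e : update (update (update (fun k => if k = 1 then un (x.count true) else
          if k = 2 then un (x.count false) else []) 0 (un (r x.length))) 1 []) 2 []
          = (fun k => if k = 0 then un (g x) else []) := by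
        funext k
        simp only [update_apply, hg, hx, if_true]
        split_ifs <;> first | rfl | contradiction | omega
      rw [e] at h6
      refine h6.mono ?_
      have e1 : ((update (fun k => if k = 1 then un (x.count true) else
          if k = 2 then un (x.count false) else []) 0 (un (r x.length))) 1).length
          = x.length := by
        rw [update_of_ne (by omega), if_pos rfl, un_length, hct]
      have e2 : ((update (update (fun k => if k = 1 then un (x.count true) else
          if k = 2 then un (x.count false) else []) 0 (un (r x.length))) 1 []) 2).length
          = 0 := by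
        rw [update_of_ne (by omega), update_of_ne (by omega), if_neg (by omega), if_pos rfl,
          un_length, hx]
      rw [e1, e2]
      omega
    · have hct : x.count true + x.count false = x.length := by
        rw [Nat.add_comm]
        exact List.count_false_add_count_true x
      have h3 := EvB.brt (A := A) (r := 2) (pn := Pr (fun _ => 1) 0 3) (pf := .skip)
        (s := fun k => if k = 1 then un (x.count true) else
          if k = 2 then un (x.count false) else []) (l := un (x.count false - 1))
        (by
          rw [if_neg (by omega), if_pos rfl, un_cons]
          congr 1; omega) (EvB.skip _)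
      have h4 := clear_ev (A := A) 1 (fun k => if k = 1 then un (x.count true) else
          if k = 2 then un (x.count false) else [])
      have h5 := clear_ev (A := A) 2 (update (fun k => if k = 1 then un (x.count true) else
          if k = 2 then un (x.count false) else []) 1 [])
      have h6 := h1.seq (h3.seq (h4.seq h5))
      have e : update (update (fun k => if k = 1 then un (x.count true) else
          if k = 2 then un (x.count false) else []) 1 []) 2 []
          = (fun k => if k = 0 then un (g x) else []) := by
        funext k
        simp only [update_apply, hg, if_neg hx]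
        split_ifs <;> rfl
      rw [e] at h6
      refine h6.mono ?_
      have e1 : ((fun k => if k = 1 then un (x.count true) else
          if k = 2 then un (x.count false) else []) 1).length = x.count true := by
        simp
      have e2 : ((update (fun k => if k = 1 then un (x.count true) else
          if k = 2 then un (x.count false) else []) 1 []) 2).length = x.count false := by
        rw [update_of_ne (by omega), if_neg (by omega), if_pos rfl, un_length]
      rw [e1, e2]
      omega
  -- polynomial bound
  set tot : ℕ → ℕ := fun n => ((5 * n + 1) + ((T (fun _ => n) + 1 + 1) +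
        ((2 * n + 1) + (2 * n + 1)))) + 2 + (T (fun _ => n) ^ d + d) with htot
  have htPB : ∃ D, ∀ n, tot n ≤ n ^ D + D := by
    have hid := PB.proj (0 : Fin 1)
    have hTn : PB (fun v : Fin 1 → ℕ => T (fun _ => v 0)) :=
      PB.comp (G := fun _ v => v 0) hT (fun _ => hid)
    have h : PB (fun v : Fin 1 → ℕ => tot (v 0)) :=
      (((((PB.const 5).mul hid).add (PB.const 1)).add (((hTn.add (PB.const 1)).add
        (PB.const 1)).add ((((PB.const 2).mul hid).add (PB.const 1)).add
        (((PB.const 2).mul hid).add (PB.const 1))))).add (PB.const 2)).add
        ((hTn.pow d).add (PB.const d))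
    obtain ⟨c, hc⟩ := h
    obtain ⟨D, hD⟩ := pow_bound c
    refine ⟨D, fun n => ?_⟩
    have := hc (fun _ => n)
    simp only [Fin.sum_univ_one] at this
    exact this.trans (hD n)
  obtain ⟨D, hD⟩ := htPB
  refine ⟨comb P M, D, fun x => ?_⟩
  obtain ⟨t, ht, hev⟩ := hprog x
  have hrunP : ∀ w : ℕ → Bool, (comb P M).run A t w ((comb P M).init x)
      = (chkQ P M, fun k => if k = 0 then un (g x) else []) := fun w =>
    compile_correct (comb P M) A hev Sum.inl (Sum.inr none) (fun a => rfl) w
  have hgT : g x ≤ T (fun _ => x.length) := by
    simp only [hg]
    split_ifs
    · exact (hPr (fun _ => x.length)).1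
    · exact Nat.zero_le _
  have hmem : (x ∈ {x | ∃ n, x = un n ∧ ∃ a, r n = a + 1 ∧ un a ∈ L}) ↔
      ∃ a, g x = a + 1 ∧ un a ∈ L := by
    constructor
    · rintro ⟨n, rfl, a, ha, haL⟩
      refine ⟨a, ?_, haL⟩
      simp only [hg]
      rw [if_pos (count_un n).2, un_length]
      exact ha
    · rintro ⟨a, ha, haL⟩
      simp only [hg] at ha
      split_ifs at ha with hx
      exact ⟨x.length, eq_un_of_count hx, a, ha, haL⟩
  have hDx := hD x.length
  rcases Nat.eq_zero_or_pos (g x) with hgx | hgx
  · -- rejected by the program
    have hrun1 : ∀ w : ℕ → Bool, (comb P M).run A (t + 1) w ((comb P M).init x)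
        = (rejQ P M, fun k => if k = 0 then un (g x) else []) := by
      intro w
      rw [Machine.run_add, hrunP, Machine.run_one, Machine.step]
      simp only [comb_act_chkQ, if_true, hgx, un_zero, List.head?_nil, chkF]
    have hhalt : ∀ w : ℕ → Bool, (comb P M).Halted
        ((comb P M).run A (t + 1) w ((comb P M).init x)) := by
      intro w
      rw [hrun1]
      exact ⟨false, rfl⟩
    have hle : t + 1 ≤ x.length ^ D + D := by
      simp only [htot] at hDx
      omega
    constructor
    · intro w
      rw [run_mono (comb P M) w _ hle (hhalt w)]
      exact hhalt w
    · rw [hmem]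
      constructor
      · rintro ⟨a, ha, -⟩
        omega
      · rintro ⟨w, hw⟩
        rw [run_mono (comb P M) w _ hle (hhalt w), hrun1] at hw
        have hw' : (Act.halt false : Act (comb P M).Q) = .halt true := hw
        cases hw'
  · obtain ⟨a, ha⟩ : ∃ a, g x = a + 1 := ⟨g x - 1, by omega⟩
    have hrun2 : ∀ w : ℕ → Bool, (comb P M).run A (t + 2) w ((comb P M).init x)
        = embC P M (M.init (un a)) := by
      intro w
      rw [show t + 2 = t + (1 + 1) by omega, Machine.run_add, hrunP, Machine.run_add,
        Machine.run_one, Machine.run_one]
      simp only [Machine.step, comb_act_chkQ, chkF, if_true, ha, un_succ, List.head?_cons,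
        comb_act_popQ, List.tail_cons]
      refine Prod.ext rfl ?_
      funext k
      simp only [update_apply, embC, Machine.init]
      split_ifs <;> rfl
    have hrun3 : ∀ (s : ℕ) (w : ℕ → Bool), (comb P M).run A (t + 2 + s) w ((comb P M).init x)
        = embC P M (M.run A s (fun i => w (i + (t + 2))) (M.init (un a))) := by
      intro s w
      rw [Machine.run_add, hrun2, comb_run]
    have hMa := hM (un a)
    rw [un_length] at hMa
    have haT : a ≤ T (fun _ => x.length) := by omega
    have hpow : a ^ d ≤ T (fun _ => x.length) ^ d := Nat.pow_le_pow_left haT d
    obtain ⟨s, hs⟩ : ∃ s, x.length ^ D + D = t + 2 + s :=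
      Nat.exists_eq_add_of_le (by simp only [htot] at hDx; omega)
    have hsle : a ^ d + d ≤ s := by
      simp only [htot] at hDx
      omega
    rw [hs]
    constructor
    · intro w
      rw [hrun3, comb_halted, run_mono M _ _ hsle (hMa.1 _)]
      exact hMa.1 _
    · rw [hmem]
      constructor
      · rintro ⟨a', ha', haL⟩
        have : a' = a := by omega
        subst this
        obtain ⟨w, hw⟩ := hMa.2.1 haL
        refine ⟨fun i => w (i - (t + 2)), ?_⟩
        rw [hrun3, comb_accepts]
        have e : (fun i => w (i + (t + 2) - (t + 2))) = w := by
          funext i
          rw [Nat.add_sub_cancel]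
        rw [e, run_mono M _ _ hsle (hMa.1 _)]
        exact hw
      · rintro ⟨w, hw⟩
        refine ⟨a, ha, hMa.2.2 ⟨fun i => w (i + (t + 2)), ?_⟩⟩
        rw [hrun3, comb_accepts, run_mono M _ _ hsle (hMa.1 _)] at hw
        exact hw

/-- all strings -/
theorem InNP.univ : InNP A Set.univ := by
  refine ⟨⟨Unit, inferInstance, (), fun _ => .halt true⟩, 0, fun x => ⟨fun w => ⟨true, rfl⟩, ?_⟩⟩
  constructor
  · intro _
    exact ⟨fun _ => true, rfl⟩
  · intro _
    trivial

end Pool.Agent.Helper556.OM
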