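import Pool.Agent.Helper556.UArith

/-!
Simulation of an oracle machine, with the nondeterministic choices read off the binary
digits of a number given in unary.
-/

namespace Pool.Agent.Helper556.OM

open Function

variable {A : Set (List Bool)}

/-! ### halving -/

def halve (z p h : ℕ) : Cmd :=
  .seq (.loop z (.seq (.pop z) (.br z (.push p true) .skip (.seq (.pop z) (.push h true)))))
    (move h z)

theorem halve_ev {z p h : ℕ} (hzp : z ≠ p) (hzh : z ≠ h) (hph : p ≠ h) {s : St} {n : ℕ}
    (hz : s z = un n) (hp : s p = []) (hh : s h = []) :
    EvB A (halve z p h) s (update (update s z (un (n / 2))) p (un (n % 2))) (10 * n + 10) := by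
  set I : ℕ → St := fun i => update (update (update s z (un (n - 2 * i))) h
    (un (min i (n / 2)))) p (un (2 * i - n)) with hI
  have ex : ∀ i x, I i x = if x = p then un (2 * i - n) else if x = h then
      un (min i (n / 2)) else if x = z then un (n - 2 * i) else s x := by
    intro i x
    simp only [hI, update_apply]
  have h1 := EvB.loop_count (A := A) (r := z)
    (p := .seq (.pop z) (.br z (.push p true) .skip (.seq (.pop z) (.push h true)))) 4
    ((n + 1) / 2) I ?_ ?_ ?_
  · have e0 : I 0 = s := by
      funext x
      rw [ex]
      split_ifs with h1 h2 h3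
      · subst h1; rw [hp]; simp
      · subst h2; rw [hh]; simp
      · subst h3; rw [hz]; simp
      · rfl
    have h2 := move_ev (A := A) (a := h) (b := z) hzh.symm (s := I ((n + 1) / 2)) (n := n / 2)
      (m := 0) ?_ ?_
    · rw [e0] at h1
      have h3 := h1.seq h2
      have e1 : update (update (I ((n + 1) / 2)) h []) z (un (0 + n / 2))
        = update (update s z (un (n / 2))) p (un (n % 2)) := by
        funext x
        simp only [update_apply, ex]
        split_ifs with h1 h2 h3 h4
        · exact absurd (h1.symm.trans h2) hzp
        · rw [zero_add]
        · exact absurd (h4.symm.trans h3) hph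
        · subst h3; rw [hh]
        · congr 1; omega
        · rfl
      rw [e1] at h3
      refine h3.mono ?_
      omega
    · rw [ex, if_neg hph.symm, if_pos rfl]
      congr 1; omega
    · rw [ex, if_neg hzp, if_neg hzh, if_pos rfl]
      congr 1; omega
  · intro i hi
    rw [ex, if_neg hzp, if_neg hzh, if_pos rfl]
    exact un_ne (by omega)
  · rw [ex, if_neg hzp, if_neg hzh, if_pos rfl]
    rw [show n - 2 * ((n + 1) / 2) = 0 by omega]
    rfl
  · intro i hi
    have p1 := EvB.pop (A := A) z (I i)
    have eI : I i z = un (n - 2 * i) := by rw [ex, if_neg hzp, if_neg hzh, if_pos rfl]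
    rw [eI, un_tail] at p1
    by_cases hc : n - 2 * i = 1
    · have p2 := EvB.push (A := A) p true (update (I i) z (un (n - 2 * i - 1)))
      have p3 := EvB.brn (A := A) (r := z) (pf := .skip) (pt := .seq (.pop z) (.push h true))
        (s := update (I i) z (un (n - 2 * i - 1))) (by rw [update_self, hc]; rfl) p2
      have p4 := p1.seq p3
      have e1 : update (update (I i) z (un (n - 2 * i - 1))) p
        (true :: (update (I i) z (un (n - 2 * i - 1))) p) = I (i + 1) := by
        funext x
        simp only [update_apply, ex]
        split_ifs <;> first
          | (exfalso; omega)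
          | rfl
          | (congr 1; omega)
          | (rw [un_cons]; congr 1; omega)
      rw [e1] at p4
      exact p4.mono (by omega)
    · have p2 := EvB.pop (A := A) z (update (I i) z (un (n - 2 * i - 1)))
      rw [update_self, un_tail, update_idem] at p2
      have p2' := EvB.push (A := A) h true (update (I i) z (un (n - 2 * i - 1 - 1)))
      have p3 := EvB.brt (A := A) (r := z) (pn := .push p true) (pf := .skip)
        (s := update (I i) z (un (n - 2 * i - 1))) (l := un (n - 2 * i - 2))
        (by rw [update_self, un_cons]; congr 1; omega) (p2.seq p2')
      have p4 := p1.seq p3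
      have e1 : update (update (I i) z (un (n - 2 * i - 1 - 1))) h
        (true :: (update (I i) z (un (n - 2 * i - 1 - 1))) h) = I (i + 1) := by
        funext x
        simp only [update_apply, ex]
        split_ifs <;> first
          | (exfalso; omega)
          | rfl
          | (congr 1; omega)
          | (rw [un_cons]; congr 1; omega)
      rw [e1] at p4
      exact p4.mono (by omega)

/-! ### setting the program counter and dispatch -/

def pushn (pc : ℕ) : ℕ → Cmd
  | 0 => .skip
  | n + 1 => .seq (.push pc true) (pushn pc n)

theorem pushn_ev (pc : ℕ) : ∀ (n m : ℕ) (s : St), s pc = un m →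
    EvB A (pushn pc n) s (update s pc (un (m + n))) (n + 1)
  | 0, m, s, h => by
      have h1 := EvB.skip (A := A) s
      rw [Nat.add_zero, ← h, update_eq_self]
      exact h1
  | n + 1, m, s, h => by
      have h1 := EvB.push (A := A) pc true s
      rw [h, un_cons] at h1
      have h2 := pushn_ev pc n (m + 1) (update s pc (un (m + 1))) (by rw [update_self])
      have h3 := h1.seq h2
      rw [update_idem, show m + 1 + n = m + (n + 1) by omega] at h3
      exact h3.mono (by omega)

def dispatch (pc : ℕ) : List Cmd → Cmd
  | [] => .skip
  | c :: cs => .br pc c .skip (.seq (.pop pc) (dispatch pc cs))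

theorem dispatch_ev (pc : ℕ) : ∀ (L : List Cmd) (j : ℕ) (c : Cmd) (s s' : St) (T : ℕ),
    L[j]? = some c → s pc = un j → EvB A c (update s pc []) s' T →
    EvB A (dispatch pc L) s s' (2 * j + T + 1)
  | [], j, c, s, s', T, hj, _, _ => by simp at hj
  | a :: L, 0, c, s, s', T, hj, hs, h => by
      simp only [List.getElem?_cons_zero, Option.some.injEq] at hj
      subst hj
      have e : update s pc [] = s := by
        rw [un_zero] at hs
        rw [← hs, update_eq_self]
      rw [e] at h
      exact (EvB.brn (by rw [hs]; rfl) h).mono (by omega)
  | a :: L, j + 1, c, s, s', T, hj, hs, h => by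
      simp only [List.getElem?_cons_succ] at hj
      have h1 := EvB.pop (A := A) pc s
      rw [hs, un_tail] at h1
      have h2 := dispatch_ev pc L j c (update s pc (un j)) s' T hj (by rw [update_self])
        (by rw [update_idem]; exact h)
      have h3 := h1.seq h2
      exact (EvB.brt (l := un j) (by rw [hs]; rfl) h3).mono (by omega)

/-! ### clearing a block of registers -/

def clears (base : ℕ) : ℕ → Cmd
  | 0 => .skip
  | n + 1 => .seq (clears base n) (clear (base + n))

theorem clears_ev (base : ℕ) (s : St) (L : ℕ) (hL : ∀ r, base ≤ r → (s r).length ≤ L) : ∀ n : ℕ,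
    EvB A (clears base n) s (fun x => if base ≤ x ∧ x < base + n then [] else s x)
      (n * (2 * L + 1) + 1)
  | 0 => by
      have h1 := EvB.skip (A := A) s
      have e : (fun x => if base ≤ x ∧ x < base + 0 then [] else s x) = s := by
        funext x
        rw [if_neg (by omega)]
      rw [e]
      exact h1.mono (by omega)
  | n + 1 => by
      have h1 := clears_ev base s L hL n
      have h2 := clear_ev (A := A) (base + n) (fun x => if base ≤ x ∧ x < base + n then []
        else s x)
      have h3 := h1.seq h2
      have e : update (fun x => if base ≤ x ∧ x < base + n then [] else s x) (base + n) []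
        = (fun x => if base ≤ x ∧ x < base + (n + 1) then [] else s x) := by
        funext x
        rw [update_apply]
        split_ifs <;> first | rfl | omega
      rw [e] at h3
      refine h3.mono ?_
      rw [if_neg (by omega)]
      have := hL (base + n) (by omega)
      have e2 : (n + 1) * (2 * L + 1) = n * (2 * L + 1) + (2 * L + 1) := by ring
      omega

/-! ### the simulation -/

/-- the stack touched by an action -/
def Act.reg {Q : Type} : Act Q → ℕ
  | .push k _ _ => k
  | .pop k _ => k
  | .read k _ => k
  | .ask k _ => k
  | .guess _ => 0
  | .halt _ => 0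

theorem exists_reg_bound (M : Machine) : ∃ B : ℕ, 1 ≤ B ∧ ∀ q, (M.act q).reg < B := by
  have := M.fin
  obtain ⟨B, hB⟩ := (Set.finite_range (fun q => (M.act q).reg)).bddAbove
  exact ⟨B + 1, by omega, fun q => Nat.lt_succ_of_le (hB ⟨q, rfl⟩)⟩

section

variable (M : Machine) (base B out : ℕ) {m : ℕ} (ι : M.Q ≃ Fin m)

def actCmd (q : M.Q) : Cmd :=
  match M.act q with
  | .push k b q' => .seq (.push (base + k) b) (pushn (base + B) (ι q'))
  | .pop k q' => .seq (.pop (base + k)) (pushn (base + B) (ι q'))
  | .read k f => .br (base + k) (pushn (base + B) (ι (f none)))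
      (pushn (base + B) (ι (f (some false)))) (pushn (base + B) (ι (f (some true))))
  | .ask k f => .ask (base + k) (pushn (base + B) (ι (f true))) (pushn (base + B) (ι (f false)))
  | .guess f => .br (base + B + 2) (pushn (base + B) (ι (f false)))
      (pushn (base + B) (ι (f false))) (pushn (base + B) (ι (f true)))
  | .halt b => .seq (.pop (base + B + 4)) (if b then .push out true else .skip)

def body : Cmd :=
  .seq (halve (base + B + 1) (base + B + 2) (base + B + 3))
    (.seq (dispatch (base + B) (List.ofFn (fun j : Fin m => actCmd M base B out ι (ι.symm j))))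
      (.pop (base + B + 2)))

/-- the state representing a configuration, with the remaining choices given by `z` -/
def rep (s0 : St) (c : M.Config) (z : ℕ) : St := fun x =>
  if x = base + B then un (ι c.1) else if x = base + B + 1 then un z else
    if x = base + B + 4 then [true] else
      if base ≤ x ∧ x < base + B then c.2 (x - base) else s0 x

def mid (s0 : St) (c : M.Config) (z p : ℕ) : St := fun x =>
  if x = base + B + 1 then un z else if x = base + B + 2 then un p else
    if x = base + B + 4 then [true] else
      if base ≤ x ∧ x < base + B then c.2 (x - base) else s0 x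

def fin (s0 : St) (c : M.Config) (z o : ℕ) : St := fun x =>
  if x = base + B + 1 then un z else
    if base ≤ x ∧ x < base + B then c.2 (x - base) else if x = out then un o else s0 x

end

end Pool.Agent.Helper556.OM
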