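import Pool.Agent.Helper556.Sim

/-!
Simulation of an oracle machine, correctness.
-/

namespace Pool.Agent.Helper556.OM

open Function

variable {A : Set (List Bool)}

section

variable (M : Machine) (base B out : ℕ) {m : ℕ} (ι : M.Q ≃ Fin m)

theorem mid_at (s0 : St) (c : M.Config) (z p k : ℕ) (hk : k < B) :
    mid M base B s0 c z p (base + k) = c.2 k := by
  simp only [mid]
  rw [if_neg (by omega), if_neg (by omega), if_neg (by omega), if_pos (by omega),
    Nat.add_sub_cancel_left]

theorem mid_pc (s0 : St) (hs0 : ∀ x, base ≤ x → s0 x = []) (c : M.Config) (z p : ℕ) :
    mid M base B s0 c z p (base + B) = [] := by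
  simp only [mid]
  rw [if_neg (by omega), if_neg (by omega), if_neg (by omega), if_neg (by omega),
    hs0 _ (by omega)]

theorem upd_mid (s0 : St) (c c' : M.Config) (z p : ℕ)
    (k : ℕ) (hk : k < B) (h : ∀ r, r ≠ k → c'.2 r = c.2 r) (q : M.Q) (hq : c'.1 = q) :
    update (update (mid M base B s0 c z p) (base + k) (c'.2 k)) (base + B) (un (0 + ι q))
      = fun x => if x = base + B then un (ι c'.1) else mid M base B s0 c' z p x := by
  subst hq
  funext x
  simp only [update_apply, mid, zero_add]
  split_ifs
  all_goals first
    | rfl
    | (exfalso; omega)
    | exact (h _ (by omega)).symm
    | (rw [show x - base = k by omega])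

theorem act_step (hB : ∀ q, (M.act q).reg < B) (s0 : St) (hs0 : ∀ x, base ≤ x → s0 x = [])
    (c : M.Config) (z : ℕ) (g : Bool) (hnh : ¬ M.Halted c) :
    EvB A (actCmd M base B out ι c.1) (mid M base B s0 c z g.toNat)
      (fun x => if x = base + B then un (ι (M.step A g c).1) else
        mid M base B s0 (M.step A g c) z g.toNat x) (m + 3) := by
  have hpc := mid_pc M base B s0 hs0 c z g.toNat
  have hBc := hB c.1
  have hpush : ∀ (q : M.Q) (s : St), s (base + B) = [] →
      EvB A (pushn (base + B) (ι q)) s (update s (base + B) (un (0 + ι q))) (m + 1) := by
    intro q s hs
    have h := pushn_ev (A := A) (base + B) (ι q) 0 s hs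
    have := (ι q).2
    exact h.mono (by omega)
  have hsame : ∀ (q : M.Q), update (mid M base B s0 c z g.toNat) (base + B) (un (0 + ι q))
      = fun x => if x = base + B then un (ι (q, c.2).1) else
        mid M base B s0 (q, c.2) z g.toNat x := by
    intro q
    funext x
    simp only [update_apply, zero_add, mid]
  cases hact : M.act c.1 with
  | push k b q =>
      rw [hact] at hBc
      simp only [Act.reg] at hBc
      have hstep : M.step A g c = (q, update c.2 k (b :: c.2 k)) := by
        simp only [Machine.step, hact]
      have p1 := EvB.push (A := A) (base + k) b (mid M base B s0 c z g.toNat)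
      have p2 := hpush q (update (mid M base B s0 c z g.toNat) (base + k)
        (b :: mid M base B s0 c z g.toNat (base + k)))
        (by rw [update_of_ne (by omega), hpc])
      have p3 := p1.seq p2
      rw [mid_at M base B s0 c z g.toNat k hBc] at p3
      have e := upd_mid M base B ι s0 c (q, update c.2 k (b :: c.2 k)) z g.toNat k hBc
        (fun r hr => by simp only [update_of_ne hr]) q rfl
      simp only [update_self] at e
      rw [e] at p3
      simp only [actCmd, hact, hstep]
      exact p3.mono (by omega)
  | pop k q =>
      rw [hact] at hBc
      simp only [Act.reg] at hBc
      have hstep : M.step A g c = (q, update c.2 k (c.2 k).tail) := by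
        simp only [Machine.step, hact]
      have p1 := EvB.pop (A := A) (base + k) (mid M base B s0 c z g.toNat)
      have p2 := hpush q (update (mid M base B s0 c z g.toNat) (base + k)
        (mid M base B s0 c z g.toNat (base + k)).tail)
        (by rw [update_of_ne (by omega), hpc])
      have p3 := p1.seq p2
      rw [mid_at M base B s0 c z g.toNat k hBc] at p3
      have e := upd_mid M base B ι s0 c (q, update c.2 k (c.2 k).tail) z g.toNat k hBc
        (fun r hr => by simp only [update_of_ne hr]) q rfl
      simp only [update_self] at e
      rw [e] at p3
      simp only [actCmd, hact, hstep]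
      exact p3.mono (by omega)
  | read k f =>
      rw [hact] at hBc
      simp only [Act.reg] at hBc
      have hstep : M.step A g c = (f (c.2 k).head?, c.2) := by
        simp only [Machine.step, hact]
      have hat := mid_at M base B s0 c z g.toNat k hBc
      simp only [actCmd, hact, hstep]
      cases hck : c.2 k with
      | nil =>
          rw [hck] at hat
          have p := EvB.brn (A := A) (pf := pushn (base + B) (ι (f (some false))))
            (pt := pushn (base + B) (ι (f (some true)))) hat (hpush (f none) _ hpc)
          rw [hsame] at p
          exact p.mono (by omega)
      | cons b l =>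
          rw [hck] at hat
          cases b with
          | false =>
              have p := EvB.brf (A := A) (pn := pushn (base + B) (ι (f none)))
                (pt := pushn (base + B) (ι (f (some true)))) hat (hpush (f (some false)) _ hpc)
              rw [hsame] at p
              exact p.mono (by omega)
          | true =>
              have p := EvB.brt (A := A) (pn := pushn (base + B) (ι (f none)))
                (pf := pushn (base + B) (ι (f (some false)))) hat (hpush (f (some true)) _ hpc)
              rw [hsame] at p
              exact p.mono (by omega)
  | ask k f =>
      rw [hact] at hBc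
      simp only [Act.reg] at hBc
      have hstep : M.step A g c = (f (@decide (c.2 k ∈ A) (Classical.propDecidable _)), c.2) := by
        simp only [Machine.step, hact]
      have hat := mid_at M base B s0 c z g.toNat k hBc
      simp only [actCmd, hact, hstep]
      by_cases hA : c.2 k ∈ A
      · obtain ⟨t, ht, h⟩ := hpush (f true) _ hpc
        rw [hsame] at h
        refine ⟨t + 1, by omega, ?_⟩
        simp only [hA, decide_true]
        exact Ev.askt (by rw [hat]; exact hA) h
      · obtain ⟨t, ht, h⟩ := hpush (f false) _ hpc
        rw [hsame] at h
        refine ⟨t + 1, by omega, ?_⟩
        simp only [hA, decide_false]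
        exact Ev.askf (by rw [hat]; exact hA) h
  | guess f =>
      have hstep : M.step A g c = (f g, c.2) := by
        simp only [Machine.step, hact]
      simp only [actCmd, hact, hstep]
      have hat : mid M base B s0 c z g.toNat (base + B + 2) = un g.toNat := by
        simp only [mid]
        rw [if_neg (by omega)]
        simp
      cases g with
      | false =>
          have p := EvB.brn (A := A) (pf := pushn (base + B) (ι (f false)))
            (pt := pushn (base + B) (ι (f true))) hat (hpush (f false) _ hpc)
          rw [hsame] at p
          exact p.mono (by omega)
      | true =>
          have p := EvB.brt (A := A) (pn := pushn (base + B) (ι (f false)))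
            (pf := pushn (base + B) (ι (f false))) (l := []) hat (hpush (f true) _ hpc)
          rw [hsame] at p
          exact p.mono (by omega)
  | halt b => exact absurd ⟨b, hact⟩ hnh

theorem act_halt (s0 : St) (hs0 : ∀ x, base ≤ x → s0 x = []) (hout : out < base)
    (hso : s0 out = [])
    (c : M.Config) (z p : ℕ) (b : Bool) (h : M.act c.1 = .halt b) :
    EvB A (actCmd M base B out ι c.1) (mid M base B s0 c z p)
      (fun x => if x = base + B + 2 then un p else fin M base B out s0 c z b.toNat x) 2 := by
  have p1 := EvB.pop (A := A) (base + B + 4) (mid M base B s0 c z p)
  have hat : mid M base B s0 c z p (base + B + 4) = [true] := by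
    simp only [mid]
    rw [if_neg (by omega), if_neg (by omega)]
    simp
  rw [hat] at p1
  simp only [List.tail_cons] at p1
  simp only [actCmd, h]
  cases b with
  | false =>
      have p2 := EvB.skip (A := A) (update (mid M base B s0 c z p) (base + B + 4) [])
      have p3 := p1.seq p2
      have e : update (mid M base B s0 c z p) (base + B + 4) []
        = (fun x => if x = base + B + 2 then un p else
          fin M base B out s0 c z Bool.false.toNat x) := by
        funext x
        simp only [update_apply, mid, fin, Bool.toNat_false, un_zero]
        split_ifs
        all_goals first
          | rfl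
          | (exfalso; omega)
          | (rw [hs0 _ (by omega)])
          | (rename_i h'; subst h'; rw [hso])
      rw [e] at p3
      exact p3
  | true =>
      have p2 := EvB.push (A := A) out true (update (mid M base B s0 c z p) (base + B + 4) [])
      have p3 := p1.seq p2
      have e : update (update (mid M base B s0 c z p) (base + B + 4) []) out
        (true :: (update (mid M base B s0 c z p) (base + B + 4) []) out)
        = (fun x => if x = base + B + 2 then un p else
          fin M base B out s0 c z Bool.true.toNat x) := by
        funext x
        simp only [update_apply, mid, fin, Bool.toNat_true]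
        split_ifs
        all_goals first
          | rfl
          | (exfalso; omega)
          | (rw [hs0 _ (by omega)])
          | (rw [hso]; rfl)
      rw [e] at p3
      exact p3

end

end Pool.Agent.Helper556.OM
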