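import Pool.Agent.Helper556.Sim2

/-!
Simulation of an oracle machine: the loop and the final statement.
-/

namespace Pool.Agent.Helper556.OM

open Function

variable {A : Set (List Bool)}

theorem Machine.step_halted (M : Machine) (g : Bool) (c : M.Config) (h : M.Halted c) :
    M.step A g c = c := by
  obtain ⟨b, hb⟩ := h
  simp only [Machine.step, hb]

theorem Machine.run_halted (M : Machine) (c : M.Config) (h : M.Halted c) :
    ∀ (t : ℕ) (w : ℕ → Bool), M.run A t w c = c
  | 0, _ => rfl
  | t + 1, w => by
      rw [Machine.run, Machine.step_halted M _ c h, Machine.run_halted M c h t]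

theorem Machine.step_length (M : Machine) (g : Bool) (c : M.Config) (r : ℕ) :
    ((M.step A g c).2 r).length ≤ (c.2 r).length + 1 := by
  cases hact : M.act c.1 with
  | push k b q =>
      simp only [Machine.step, hact, update_apply]
      split_ifs with h
      · subst h; simp
      · omega
  | pop k q =>
      simp only [Machine.step, hact, update_apply]
      split_ifs with h
      · subst h; simp; omega
      · omega
  | read k q => simp only [Machine.step, hact]; omega
  | ask k q => simp only [Machine.step, hact]; omega
  | guess q => simp only [Machine.step, hact]; omega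
  | halt b => simp only [Machine.step, hact]; omega

theorem Machine.run_length (M : Machine) : ∀ (t : ℕ) (w : ℕ → Bool) (c : M.Config) (r : ℕ),
    ((M.run A t w c).2 r).length ≤ (c.2 r).length + t
  | 0, _, c, r => by simp [Machine.run]
  | t + 1, w, c, r => by
      rw [Machine.run]
      have h1 := Machine.run_length M t (fun i => w (i + 1)) (M.step A (w 0) c) r
      have h2 := Machine.step_length (A := A) M (w 0) c r
      omega

section

variable (M : Machine) (base B out : ℕ) {m : ℕ} (ι : M.Q ≃ Fin m)

theorem list_get (q : M.Q) :
    (List.ofFn (fun j : Fin m => actCmd M base B out ι (ι.symm j)))[(ι q : ℕ)]?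
      = some (actCmd M base B out ι q) := by
  rw [List.getElem?_ofFn, dif_pos (ι q).2]
  simp

theorem body_step (hB : ∀ q, (M.act q).reg < B) (s0 : St) (hs0 : ∀ x, base ≤ x → s0 x = [])
    (c : M.Config) (z : ℕ) (hnh : ¬ M.Halted c) :
    EvB A (body M base B out ι) (rep M base B ι s0 c z)
      (rep M base B ι s0 (M.step A (z.testBit 0) c) (z / 2)) (10 * z + 3 * m + 20) := by
  have p1 := halve_ev (A := A) (z := base + B + 1) (p := base + B + 2) (h := base + B + 3)
    (by omega) (by omega) (by omega) (s := rep M base B ι s0 c z) (n := z)
    (by simp only [rep]; rw [if_neg (by omega)]; simp)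
    (by simp only [rep]; rw [if_neg (by omega), if_neg (by omega), if_neg (by omega),
          if_neg (by omega), hs0 _ (by omega)])
    (by simp only [rep]; rw [if_neg (by omega), if_neg (by omega), if_neg (by omega),
          if_neg (by omega), hs0 _ (by omega)])
  have hg : z % 2 = (z.testBit 0).toNat := by
    rw [Nat.testBit_zero]
    rcases Nat.mod_two_eq_zero_or_one z with h | h <;> simp [h]
  have h1 := act_step (A := A) M base B out ι hB s0 hs0 c (z / 2) (z.testBit 0) hnh
  have e1 : update (update (update (rep M base B ι s0 c z) (base + B + 1) (un (z / 2)))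
      (base + B + 2) (un (z % 2))) (base + B) []
      = mid M base B s0 c (z / 2) (z.testBit 0).toNat := by
    rw [← hg]
    funext x
    simp only [update_apply, mid, rep]
    split_ifs
    all_goals first
      | rfl
      | (exfalso; omega)
      | (rw [hs0 _ (by omega)])
  have p2 := dispatch_ev (A := A) (base + B)
    (List.ofFn (fun j : Fin m => actCmd M base B out ι (ι.symm j))) (ι c.1)
    (actCmd M base B out ι c.1) (update (update (rep M base B ι s0 c z) (base + B + 1)
      (un (z / 2))) (base + B + 2) (un (z % 2))) _ (m + 3) (list_get M base B out ι c.1)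
    (by
      rw [update_of_ne (by omega), update_of_ne (by omega)]
      simp only [rep]
      rw [if_pos trivial])
    (by rw [e1]; exact h1)
  have p3 := EvB.pop (A := A) (base + B + 2) (fun x => if x = base + B then
    un (ι (M.step A (z.testBit 0) c).1) else
        mid M base B s0 (M.step A (z.testBit 0) c) (z / 2) (z.testBit 0).toNat x)
  have p4 := p1.seq (p2.seq p3)
  have e2 : update (fun x => if x = base + B then
    un (ι (M.step A (z.testBit 0) c).1) else
        mid M base B s0 (M.step A (z.testBit 0) c) (z / 2) (z.testBit 0).toNat x)
        (base + B + 2) ((fun x => if x = base + B then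
    un (ι (M.step A (z.testBit 0) c).1) else
        mid M base B s0 (M.step A (z.testBit 0) c) (z / 2) (z.testBit 0).toNat x)
        (base + B + 2)).tail
      = rep M base B ι s0 (M.step A (z.testBit 0) c) (z / 2) := by
    have hb : (z.testBit 0).toNat - 1 = 0 := by
      cases z.testBit 0 <;> rfl
    funext x
    simp only [update_apply, mid, rep]
    split_ifs
    all_goals first
      | rfl
      | (exfalso; omega)
      | (rw [un_tail, hb, hs0 _ (by omega)]; rfl)
  rw [e2] at p4
  have := (ι c.1).2
  exact p4.mono (by omega)

theorem body_halt (s0 : St) (hs0 : ∀ x, base ≤ x → s0 x = []) (hout : out < base)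
    (hso : s0 out = []) (c : M.Config) (z : ℕ) (b : Bool) (h : M.act c.1 = .halt b) :
    EvB A (body M base B out ι) (rep M base B ι s0 c z)
      (fin M base B out s0 c (z / 2) b.toNat) (10 * z + 3 * m + 20) := by
  have p1 := halve_ev (A := A) (z := base + B + 1) (p := base + B + 2) (h := base + B + 3)
    (by omega) (by omega) (by omega) (s := rep M base B ι s0 c z) (n := z)
    (by simp only [rep]; rw [if_neg (by omega)]; simp)
    (by simp only [rep]; rw [if_neg (by omega), if_neg (by omega), if_neg (by omega),
          if_neg (by omega), hs0 _ (by omega)])
    (by simp only [rep]; rw [if_neg (by omega), if_neg (by omega), if_neg (by omega),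
          if_neg (by omega), hs0 _ (by omega)])
  have h1 := act_halt (A := A) M base B out ι s0 hs0 hout hso c (z / 2) (z % 2) b h
  have e1 : update (update (update (rep M base B ι s0 c z) (base + B + 1) (un (z / 2)))
      (base + B + 2) (un (z % 2))) (base + B) []
      = mid M base B s0 c (z / 2) (z % 2) := by
    funext x
    simp only [update_apply, mid, rep]
    split_ifs
    all_goals first
      | rfl
      | (exfalso; omega)
      | (rw [hs0 _ (by omega)])
  have p2 := dispatch_ev (A := A) (base + B)
    (List.ofFn (fun j : Fin m => actCmd M base B out ι (ι.symm j))) (ι c.1)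
    (actCmd M base B out ι c.1) (update (update (rep M base B ι s0 c z) (base + B + 1)
      (un (z / 2))) (base + B + 2) (un (z % 2))) _ 2 (list_get M base B out ι c.1)
    (by
      rw [update_of_ne (by omega), update_of_ne (by omega)]
      simp only [rep]
      rw [if_pos trivial])
    (by rw [e1]; exact h1)
  have p3 := EvB.pop (A := A) (base + B + 2) (fun x => if x = base + B + 2 then un (z % 2) else
    fin M base B out s0 c (z / 2) b.toNat x)
  have p4 := p1.seq (p2.seq p3)
  have e2 : update (fun x => if x = base + B + 2 then un (z % 2) else
    fin M base B out s0 c (z / 2) b.toNat x)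
        (base + B + 2) ((fun x => if x = base + B + 2 then un (z % 2) else
    fin M base B out s0 c (z / 2) b.toNat x)
        (base + B + 2)).tail
      = fin M base B out s0 c (z / 2) b.toNat := by
    have hb : z % 2 - 1 = 0 := by omega
    funext x
    simp only [update_apply, fin]
    split_ifs
    all_goals first
      | rfl
      | (exfalso; omega)
      | (rw [un_tail, hb, hs0 _ (by omega)]; rfl)
  rw [e2] at p4
  have := (ι c.1).2
  exact p4.mono (by omega)

theorem loop_sim (hB : ∀ q, (M.act q).reg < B) (s0 : St) (hs0 : ∀ x, base ≤ x → s0 x = [])
    (hout : out < base) (hso : s0 out = []) : ∀ (n : ℕ) (c : M.Config) (z Z : ℕ),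
    z ≤ Z → M.Halted (M.run A n (fun i => z.testBit i) c) →
    ∃ (c' : M.Config) (z' : ℕ), z' ≤ z ∧ (∀ r, (c'.2 r).length ≤ (c.2 r).length + n) ∧
      EvB A (.loop (base + B + 4) (body M base B out ι)) (rep M base B ι s0 c z)
        (fin M base B out s0 c' z' (ind (M.Accepts (M.run A n (fun i => z.testBit i) c))))
        ((n + 1) * (10 * Z + 3 * m + 21) + 1) := by
  intro n
  induction n with
  | zero =>
      intro c z Z hz h
      rw [Machine.run] at h
      obtain ⟨b, hb⟩ := h
      refine ⟨c, z / 2, by omega, fun r => by omega, ?_⟩
      obtain ⟨t, ht, h1⟩ := body_halt (A := A) M base B out ι s0 hs0 hout hso c z b hb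
      have h2 : Ev A (.loop (base + B + 4) (body M base B out ι))
          (fin M base B out s0 c (z / 2) b.toNat) (fin M base B out s0 c (z / 2) b.toNat) 1 := by
        apply Ev.loopn
        simp only [fin]
        rw [if_neg (by omega), if_neg (by omega), if_neg (by omega), hs0 _ (by omega)]
      have h3 : rep M base B ι s0 c z (base + B + 4) ≠ [] := by
        simp only [rep]
        rw [if_neg (by omega), if_neg (by omega), if_pos trivial]
        simp
      have e : ind (M.Accepts (M.run A 0 (fun i => z.testBit i) c)) = b.toNat := by
        rw [Machine.run, Machine.Accepts, hb]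
        cases b with
        | false => exact ind_false (by simp)
        | true => exact ind_true (by simp)
      rw [e]
      exact ⟨t + 1 + 1, by omega, Ev.loopc h3 h1 h2⟩
  | succ n ih =>
      intro c z Z hz h
      by_cases hc : M.Halted c
      · obtain ⟨b, hb⟩ := id hc
        refine ⟨c, z / 2, by omega, fun r => by omega, ?_⟩
        obtain ⟨t, ht, h1⟩ := body_halt (A := A) M base B out ι s0 hs0 hout hso c z b hb
        have h2 : Ev A (.loop (base + B + 4) (body M base B out ι))
            (fin M base B out s0 c (z / 2) b.toNat)
            (fin M base B out s0 c (z / 2) b.toNat) 1 := by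
          apply Ev.loopn
          simp only [fin]
          rw [if_neg (by omega), if_neg (by omega), if_neg (by omega), hs0 _ (by omega)]
        have h3 : rep M base B ι s0 c z (base + B + 4) ≠ [] := by
          simp only [rep]
          rw [if_neg (by omega), if_neg (by omega), if_pos trivial]
          simp
        have e : ind (M.Accepts (M.run A (n + 1) (fun i => z.testBit i) c)) = b.toNat := by
          rw [Machine.run_halted M c hc, Machine.Accepts, hb]
          cases b with
          | false => exact ind_false (by simp)
          | true => exact ind_true (by simp)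
        rw [e]
        refine ⟨t + 1 + 1, ?_, Ev.loopc h3 h1 h2⟩
        have : (n + 1 + 1) * (10 * Z + 3 * m + 21) = (n + 1) * (10 * Z + 3 * m + 21)
          + (10 * Z + 3 * m + 21) := by ring
        omega
      · have e : (fun i => (z / 2).testBit i) = fun i => z.testBit (i + 1) := by
          funext i
          rw [Nat.testBit_succ]
        rw [Machine.run] at h
        rw [← e] at h
        obtain ⟨c', z', hz', hl, t', ht', h'⟩ := ih (M.step A (z.testBit 0) c) (z / 2) Z
          (by omega) h
        refine ⟨c', z', by omega, fun r => ?_, ?_⟩
        · have h1 := hl r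
          have h2 := Machine.step_length (A := A) M (z.testBit 0) c r
          omega
        · obtain ⟨t, ht, h1⟩ := body_step (A := A) M base B out ι hB s0 hs0 c z hc
          have h3 : rep M base B ι s0 c z (base + B + 4) ≠ [] := by
            simp only [rep]
            rw [if_neg (by omega), if_neg (by omega), if_pos trivial]
            simp
          rw [Machine.run, ← e]
          refine ⟨t + t' + 1, ?_, Ev.loopc h3 h1 h'⟩
          have : (n + 1 + 1) * (10 * Z + 3 * m + 21) = (n + 1) * (10 * Z + 3 * m + 21)
            + (10 * Z + 3 * m + 21) := by ring
          omega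

def simProg (e : Fin 2 → ℕ) : Cmd :=
  .seq (copy (e 0) base (base + B)) (.seq (copy (e 1) (base + B + 1) (base + B))
    (.seq (pushn (base + B) (ι M.start)) (.seq (.push (base + B + 4) true)
      (.seq (.loop (base + B + 4) (body M base B out ι))
        (.seq (clears base B) (clear (base + B + 1)))))))

end

/-- Acceptance of a machine that always halts in polynomial time, on a unary input and for
choices given by the binary digits of a number in unary. -/
theorem U.sim (M : Machine) (d : ℕ)
    (hM : ∀ (x : List Bool) (w : ℕ → Bool),
      M.Halted (M.run A (x.length ^ d + d) w (M.init x))) :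
    U A (fun v : Fin 2 → ℕ =>
      ind (M.Accepts (M.run A ((v 0) ^ d + d) (fun i => (v 1).testBit i) (M.init (un (v 0)))))) := by
  have := M.fin
  obtain ⟨B, hB1, hB⟩ := exists_reg_bound M
  obtain ⟨m, ⟨ι⟩⟩ := Finite.exists_equiv_fin M.Q
  refine ⟨fun e out base => simProg M base B out ι e,
    fun v => (7 * v 0 + 2) + ((7 * v 1 + 2) + ((m + 1) + (1 +
      ((((v 0) ^ d + d + 1) * (10 * v 1 + 3 * m + 21) + 1) +
        ((B * (2 * (v 0 + (v 0 ^ d + d) + v 1) + 1) + 1) + (2 * v 1 + 1)))))), ?_,
    fun v => ⟨?_, ?_⟩⟩
  · have p0 := PB.proj (0 : Fin 2)
    have p1 := PB.proj (1 : Fin 2)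
    have pN := (p0.pow d).add (PB.const d)
    exact ((PB.const 7).mul p0 |>.add (PB.const 2)).add
      (((PB.const 7).mul p1 |>.add (PB.const 2)).add ((PB.const (m + 1)).add ((PB.const 1).add
        ((((pN.add (PB.const 1)).mul ((((PB.const 10).mul p1).add (PB.const (3 * m))).add
          (PB.const 21))).add (PB.const 1)).add
          ((((PB.const B).mul (((PB.const 2).mul ((p0.add pN).add p1)).add (PB.const 1))).add
            (PB.const 1)).add (((PB.const 2).mul p1).add (PB.const 1)))))))
  · have := ind_le (M.Accepts (M.run A ((v 0) ^ d + d) (fun i => (v 1).testBit i)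
      (M.init (un (v 0)))))
    simp only
    omega
  · intro e out base he ho hne s hs hout hb
    have he0 := he 0
    have he1 := he 1
    have p1 := copy_ev (A := A) (a := e 0) (out := base) (tmp := base + B) (by omega) (by omega)
      (by omega) (hs 0) (hb _ (le_refl _)) (hb _ (by omega))
    have p2 := copy_ev (A := A) (a := e 1) (out := base + B + 1) (tmp := base + B) (by omega)
      (by omega) (by omega) (s := update s base (un (v 0))) (n := v 1)
      (by rw [update_of_ne (by omega), hs 1])
      (by rw [update_of_ne (by omega), hb _ (by omega)])
      (by rw [update_of_ne (by omega), hb _ (by omega)])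
    have p3 := pushn_ev (A := A) (base + B) (ι M.start) 0
      (update (update s base (un (v 0))) (base + B + 1) (un (v 1)))
      (by rw [update_of_ne (by omega), update_of_ne (by omega), hb _ (by omega)]; rfl)
    have p4 := EvB.push (A := A) (base + B + 4) true (update (update (update s base (un (v 0)))
      (base + B + 1) (un (v 1))) (base + B) (un (0 + ι M.start)))
    have e1 : update (update (update (update s base (un (v 0)))
      (base + B + 1) (un (v 1))) (base + B) (un (0 + ι M.start))) (base + B + 4)
      (true :: (update (update (update s base (un (v 0)))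
      (base + B + 1) (un (v 1))) (base + B) (un (0 + ι M.start))) (base + B + 4))
      = rep M base B ι s (M.init (un (v 0))) (v 1) := by
      funext x
      simp only [update_apply, rep, zero_add, Machine.init]
      split_ifs
      all_goals first
        | rfl
        | (exfalso; omega)
        | (rw [hb _ (by omega)])
    rw [e1] at p4
    have hh := hM (un (v 0)) (fun i => (v 1).testBit i)
    rw [un_length] at hh
    obtain ⟨c', z', hz', hl, p5⟩ := loop_sim (A := A) M base B out ι hB s hb ho hout
      ((v 0) ^ d + d) (M.init (un (v 0))) (v 1) (v 1) (le_refl _) hh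
    set o := ind (M.Accepts (M.run A ((v 0) ^ d + d) (fun i => (v 1).testBit i)
      (M.init (un (v 0))))) with ho'
    have hl' : ∀ r, (c'.2 r).length ≤ v 0 + (v 0 ^ d + d) := by
      intro r
      refine (hl r).trans ?_
      simp only [Machine.init]
      split_ifs
      · simp
      · simp
    have p6 := clears_ev (A := A) base (fin M base B out s c' z' o)
      (v 0 + (v 0 ^ d + d) + v 1) (by
        intro r hr
        simp only [fin]
        split_ifs
        · rw [un_length]; omega
        · have := hl' (r - base); omega
        · exfalso; omega
        · rw [hb _ hr]; simp) B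
    have p7 := clear_ev (A := A) (base + B + 1)
      (fun x => if base ≤ x ∧ x < base + B then [] else fin M base B out s c' z' o x)
    have e2 : update (fun x => if base ≤ x ∧ x < base + B then [] else
        fin M base B out s c' z' o x) (base + B + 1) [] = update s out (un o) := by
      funext x
      simp only [update_apply, fin]
      split_ifs
      all_goals first
        | rfl
        | (exfalso; omega)
        | (rw [hb _ (by omega)])
    rw [e2] at p7
    have e3 : ((fun x => if base ≤ x ∧ x < base + B then [] else
        fin M base B out s c' z' o x) (base + B + 1)).length = z' := by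
      simp only [fin]
      rw [if_neg (by omega)]
      simp
    rw [e3] at p7
    have p8 := p1.seq (p2.seq (p3.seq (p4.seq (p5.seq (p6.seq p7)))))
    refine p8.mono ?_
    have := (ι M.start).2
    simp only
    omega

end Pool.Agent.Helper556.OM
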