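import Pool.Agent.Helper556.Reduce

/-!
The number theoretic tests used for the two subspaces.
-/

namespace Pool.Agent.Helper556.OM

open Function

variable {A : Set (List Bool)} {k : ℕ}

theorem UP.comp2 {F : ℕ → ℕ → Prop} (hF : UP A (fun v : Fin 2 → ℕ => F (v 0) (v 1)))
    {g h : (Fin k → ℕ) → ℕ} (hg : U A g) (hh : U A h) : UP A (fun v => F (g v) (h v)) :=
  U.comp2 (F := fun a b => ind (F a b)) hF hg hh

theorem UP.comp1 {F : ℕ → Prop} (hF : UP A (fun v : Fin 1 → ℕ => F (v 0)))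
    {g : (Fin k → ℕ) → ℕ} (hg : U A g) : UP A (fun v => F (g v)) :=
  U.comp1 (F := fun a => ind (F a)) hF hg

/-- acceptance of the unary input `n` with choices given by the digits of `z` -/
def Acc (A : Set (List Bool)) (M : Machine) (d n z : ℕ) : Prop :=
  M.Accepts (M.run A (n ^ d + d) (fun i => z.testBit i) (M.init (un n)))

def KT (A : Set (List Bool)) (M : Machine) (d q n κ : ℕ) : Prop :=
  ∀ n' < n, ∀ z < n, (tp q n κ ≤ n' ∧ n' < tp q n (κ + 1)) → ¬ Acc A M d n' z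

def PT (A : Set (List Bool)) (M : Machine) (d q C a b n0 n i : ℕ) : Prop :=
  ∃ κ < i, (i = ft q C a n κ ∧ κ % 2 = b ∧ n0 ≤ κ ∧ KT A M d q n κ)

def ETest (A : Set (List Bool)) (M : Machine) (d q C a b n0 n : ℕ) : Prop :=
  ∀ i < n + 1, dgt q n i ≠ 0 → PT A M d q C a b n0 n i

def WTest (A : Set (List Bool)) (M : Machine) (d q C a b n0 n : ℕ) : Prop :=
  (∀ i < n + 1, (i % 2 = a ∧ dgt q n i ≠ 0) → PT A M d q C a b n0 n i) ∧
    (∀ κ < n + 1, κ % 2 = b → dgt q n κ = dgt q n (ft q C a n κ))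

noncomputable def aN (q a n : ℕ) : ℕ := ∑ i ∈ Finset.range (n + 1), ind (i % 2 = a) * (dgt q n i * tp q n i)

section

variable (M : Machine) (d : ℕ)
    (hM : ∀ (x : List Bool) (w : ℕ → Bool),
      M.Halted (M.run A (x.length ^ d + d) w (M.init x)))

include hM

theorem KT_up {q : ℕ} (hq : 1 ≤ q) : UP A (fun v : Fin 2 → ℕ => KT A M d q (v 0) (v 1)) := by
  have hacc : UP A (fun v : Fin 2 → ℕ => Acc A M d (v 0) (v 1)) := U.sim M d hM
  have h1 : UP A (fun w : Fin 4 → ℕ => (tp q (w 2) (w 3) ≤ w 1 ∧ w 1 < tp q (w 2) (w 3 + 1)) →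
      ¬ Acc A M d (w 1) (w 0)) :=
    ((UP.le (U.tp hq (U.proj 2) (U.proj 3)) (U.proj 1)).and
      (UP.lt (U.proj 1) (U.tp hq (U.proj 2) (U.proj 3).succ))).imp
      (UP.comp2 (F := fun a b => Acc A M d a b) hacc (U.proj 1) (U.proj 0)).not
  have h2 := UP.ball (k := 3) h1 (n := fun v => v 1) (U.proj 1)
  have h3 := UP.ball (k := 2) h2 (n := fun v => v 0) (U.proj 0)
  exact h3.congr (fun v => Iff.rfl)

theorem PT_up {q : ℕ} (hq : 1 ≤ q) (C a b n0 : ℕ) :
    UP A (fun v : Fin 2 → ℕ => PT A M d q C a b n0 (v 0) (v 1)) := by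
  have hKT := KT_up M d hM hq
  have h1 : UP A (fun w : Fin 3 → ℕ => w 2 = ft q C a (w 1) (w 0) ∧ w 0 % 2 = b ∧ n0 ≤ w 0 ∧
      KT A M d q (w 1) (w 0)) :=
    (UP.eq (U.proj 2) (U.ft hq C a (U.proj 1) (U.proj 0))).and
      ((UP.eq ((U.proj 0).mod (U.const 2)) (U.const b)).and
        ((UP.le (U.const n0) (U.proj 0)).and
          (UP.comp2 (F := fun a b => KT A M d q a b) hKT (U.proj 1) (U.proj 0))))
  have h2 := UP.bex (k := 2) h1 (n := fun v => v 1) (U.proj 1)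
  exact h2.congr (fun v => Iff.rfl)

theorem ETest_up {q : ℕ} (hq : 1 ≤ q) (C a b n0 : ℕ) :
    UP A (fun v : Fin 1 → ℕ => ETest A M d q C a b n0 (v 0)) := by
  have hPT := PT_up M d hM hq C a b n0
  have h1 : UP A (fun w : Fin 2 → ℕ => dgt q (w 1) (w 0) ≠ 0 →
      PT A M d q C a b n0 (w 1) (w 0)) :=
    ((UP.eq (U.dgt hq (U.proj 1) (U.proj 0)) U.zero).not).imp
      (UP.comp2 (F := fun x y => PT A M d q C a b n0 x y) hPT (U.proj 1) (U.proj 0))
  have h2 := UP.ball (k := 1) h1 (n := fun v => v 0 + 1) (U.proj 0).succ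
  exact h2.congr (fun v => Iff.rfl)

theorem WTest_up {q : ℕ} (hq : 1 ≤ q) (C a b n0 : ℕ) :
    UP A (fun v : Fin 1 → ℕ => WTest A M d q C a b n0 (v 0)) := by
  have hPT := PT_up M d hM hq C a b n0
  have h1 : UP A (fun w : Fin 2 → ℕ => (w 0 % 2 = a ∧ dgt q (w 1) (w 0) ≠ 0) →
      PT A M d q C a b n0 (w 1) (w 0)) :=
    ((UP.eq ((U.proj 0).mod (U.const 2)) (U.const a)).and
      ((UP.eq (U.dgt hq (U.proj 1) (U.proj 0)) U.zero).not)).imp
      (UP.comp2 (F := fun x y => PT A M d q C a b n0 x y) hPT (U.proj 1) (U.proj 0))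
  have h2 := UP.ball (k := 1) h1 (n := fun v => v 0 + 1) (U.proj 0).succ
  have h3 : UP A (fun w : Fin 2 → ℕ => w 0 % 2 = b →
      dgt q (w 1) (w 0) = dgt q (w 1) (ft q C a (w 1) (w 0))) :=
    (UP.eq ((U.proj 0).mod (U.const 2)) (U.const b)).imp
      (UP.eq (U.dgt hq (U.proj 1) (U.proj 0))
        (U.dgt hq (U.proj 1) (U.ft hq C a (U.proj 1) (U.proj 0))))
  have h4 := UP.ball (k := 1) h3 (n := fun v => v 0 + 1) (U.proj 0).succ
  exact (h2.and h4).congr (fun v => Iff.rfl)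

end

theorem aN_u {q : ℕ} (hq : 1 ≤ q) (a : ℕ) : U A (fun v : Fin 1 → ℕ => aN q a (v 0)) := by
  have h1 : U A (fun w : Fin 2 → ℕ => ind (w 0 % 2 = a) *
      (dgt q (w 1) (w 0) * tp q (w 1) (w 0))) :=
    U.mul (UP.eq ((U.proj 0).mod (U.const 2)) (U.const a))
      ((U.dgt hq (U.proj 1) (U.proj 0)).mul (U.tp hq (U.proj 1) (U.proj 0)))
  have h2 := U.sum (k := 1) h1 (n := fun v => v 0 + 1) (U.proj 0).succ
  exact h2.congr (fun v => rfl)

open Classical in
/-- the reduction for the subspace `E` -/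
noncomputable def rE (A : Set (List Bool)) (M : Machine) (d q C a b n0 n : ℕ) : ℕ :=
  ind (ETest A M d q C a b n0 n)

open Classical in
/-- the reduction for the subspace `W` -/
noncomputable def rW (A : Set (List Bool)) (M : Machine) (d q C a b n0 n : ℕ) : ℕ :=
  if WTest A M d q C a b n0 n then aN q a n + 1 else 0

theorem rE_u (M : Machine) (d : ℕ)
    (hM : ∀ (x : List Bool) (w : ℕ → Bool),
      M.Halted (M.run A (x.length ^ d + d) w (M.init x))) {q : ℕ} (hq : 1 ≤ q) (C a b n0 : ℕ) :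
    U A (fun v : Fin 1 → ℕ => rE A M d q C a b n0 (v 0)) :=
  ETest_up M d hM hq C a b n0

theorem rW_u (M : Machine) (d : ℕ)
    (hM : ∀ (x : List Bool) (w : ℕ → Bool),
      M.Halted (M.run A (x.length ^ d + d) w (M.init x))) {q : ℕ} (hq : 1 ≤ q) (C a b n0 : ℕ) :
    U A (fun v : Fin 1 → ℕ => rW A M d q C a b n0 (v 0)) :=
  U.ite (WTest_up M d hM hq C a b n0) (aN_u hq a).succ U.zero

end Pool.Agent.Helper556.OM
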