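import Pool.Agent.Helper556.UClass

/-!
Arithmetic functions and predicates computed in unary in polynomial time.
-/

namespace Pool.Agent.Helper556.OM

open Function

variable {k : ℕ} {A : Set (List Bool)}

theorem U.comp1 {F : ℕ → ℕ} (hF : U A (fun v : Fin 1 → ℕ => F (v 0)))
    {g : (Fin k → ℕ) → ℕ} (hg : U A g) : U A (fun v => F (g v)) := by
  have h := U.letc (hF.reindex (fun _ => (0 : Fin (k + 1)))) hg
  exact h.congr (fun v => by simp)

theorem U.comp2 {F : ℕ → ℕ → ℕ} (hF : U A (fun v : Fin 2 → ℕ => F (v 0) (v 1)))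
    {g h : (Fin k → ℕ) → ℕ} (hg : U A g) (hh : U A h) : U A (fun v => F (g v) (h v)) := by
  have h1 := U.letc (hF.reindex (Fin.cases (1 : Fin (k + 2)) (fun _ => 0)))
    (hh.reindex (Fin.succ : Fin k → Fin (k + 1)))
  have h2 := U.letc h1 hg
  refine h2.congr (fun v => ?_)
  simp only [Fin.cases_zero, show (1 : Fin 2) = Fin.succ 0 from rfl, Fin.cases_succ,
    Fin.cons_succ, show (1 : Fin (k + 2)) = Fin.succ 0 from rfl, Fin.cons_zero]

theorem U.comp3 {F : ℕ → ℕ → ℕ → ℕ} (hF : U A (fun v : Fin 3 → ℕ => F (v 0) (v 1) (v 2)))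
    {g h l : (Fin k → ℕ) → ℕ} (hg : U A g) (hh : U A h) (hl : U A l) :
    U A (fun v => F (g v) (h v) (l v)) := by
  have h0 := U.letc (hF.reindex (Fin.cases (2 : Fin (k + 3)) (Fin.cases 1 (fun _ => 0))))
    (hl.reindex (fun i : Fin k => (i.succ.succ : Fin (k + 2))))
  have h1 := U.letc h0
    (hh.reindex (Fin.succ : Fin k → Fin (k + 1)))
  have h2 := U.letc h1 hg
  refine h2.congr (fun v => ?_)
  simp only [Fin.cases_zero, show (1 : Fin 3) = Fin.succ 0 from rfl, Fin.cases_succ,
    show (2 : Fin 3) = Fin.succ (Fin.succ 0) from rfl,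
    Fin.cons_succ, show (1 : Fin (k + 3)) = Fin.succ 0 from rfl, Fin.cons_zero,
    show (2 : Fin (k + 3)) = Fin.succ (Fin.succ 0) from rfl]

theorem U.add2 : U A (fun v : Fin 2 → ℕ => v 0 + v 1) := by
  refine U.prec (n := fun v => v 1) (g := fun v => v 0) (s := fun w => w 0 + 1)
    (U.proj 1) (U.proj 0) (U.proj 0).succ (H := fun v i => v 0 + i) (fun v => rfl)
    (fun v i _ => rfl) ((PB.proj 0).add (PB.proj 1)) (fun v i hi => ?_)
  omega

theorem U.add {g h : (Fin k → ℕ) → ℕ} (hg : U A g) (hh : U A h) : U A (fun v => g v + h v) :=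
  U.comp2 (F := fun a b => a + b) U.add2 hg hh

theorem U.mul2 : U A (fun v : Fin 2 → ℕ => v 0 * v 1) := by
  refine U.prec (n := fun v => v 1) (g := fun _ => 0) (s := fun w => w 0 + w 2)
    (U.proj 1) U.zero ((U.proj 0).add (U.proj 2)) (H := fun v i => v 0 * i) (fun v => rfl)
    (fun v i _ => ?_) ((PB.proj 0).mul (PB.proj 1)) (fun v i hi => ?_)
  · simp only [Fin.cons_zero, show (2 : Fin 4) = Fin.succ (Fin.succ 0) from rfl, Fin.cons_succ]
    ring
  · exact Nat.mul_le_mul_left _ hi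

theorem U.mul {g h : (Fin k → ℕ) → ℕ} (hg : U A g) (hh : U A h) : U A (fun v => g v * h v) :=
  U.comp2 (F := fun a b => a * b) U.mul2 hg hh

theorem U.pred1 : U A (fun v : Fin 1 → ℕ => v 0 - 1) := by
  refine U.prec (n := fun v => v 0) (g := fun _ => 0) (s := fun w => w 1)
    (U.proj 0) U.zero (U.proj 1) (H := fun v i => i - 1) (fun v => rfl)
    (fun v i _ => ?_) (PB.proj 0) (fun v i hi => ?_)
  · simp only [show (1 : Fin 3) = Fin.succ 0 from rfl, Fin.cons_succ, Fin.cons_zero]
    rfl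
  · omega

theorem U.sub2 : U A (fun v : Fin 2 → ℕ => v 0 - v 1) := by
  refine U.prec (n := fun v => v 1) (g := fun v => v 0) (s := fun w => w 0 - 1)
    (U.proj 1) (U.proj 0) (U.comp1 (F := fun a => a - 1) U.pred1 (U.proj 0))
    (H := fun v i => v 0 - i) (fun v => rfl)
    (fun v i _ => ?_) (PB.proj 0) (fun v i hi => Nat.sub_le _ _)
  simp only [Fin.cons_zero]
  omega

theorem U.sub {g h : (Fin k → ℕ) → ℕ} (hg : U A g) (hh : U A h) : U A (fun v => g v - h v) :=
  U.comp2 (F := fun a b => a - b) U.sub2 hg hh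

theorem U.min {g h : (Fin k → ℕ) → ℕ} (hg : U A g) (hh : U A h) :
    U A (fun v => min (g v) (h v)) :=
  (hg.sub (hg.sub hh)).congr (fun v => by omega)

/-! ### predicates -/

open Classical in
/-- indicator of a proposition -/
noncomputable def ind (p : Prop) : ℕ := if p then 1 else 0

theorem ind_true {p : Prop} (h : p) : ind p = 1 := if_pos h

theorem ind_false {p : Prop} (h : ¬ p) : ind p = 0 := if_neg h

theorem ind_le (p : Prop) : ind p ≤ 1 := by
  unfold ind
  split_ifs <;> omega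

theorem ind_congr {p q : Prop} (h : p ↔ q) : ind p = ind q := by
  rw [propext h]

def UP (A : Set (List Bool)) {k : ℕ} (p : (Fin k → ℕ) → Prop) : Prop := U A (fun v => ind (p v))

theorem UP.congr {p q : (Fin k → ℕ) → Prop} (h : UP A p) (hpq : ∀ v, p v ↔ q v) : UP A q :=
  U.congr h (fun v => ind_congr (hpq v))

theorem UP.not {p : (Fin k → ℕ) → Prop} (h : UP A p) : UP A (fun v => ¬ p v) := by
  refine U.congr ((U.const 1).sub h) (fun v => ?_)
  simp only
  by_cases hp : p v
  · rw [ind_true hp, ind_false (not_not.2 hp)]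
  · rw [ind_false hp, ind_true hp]

theorem UP.and {p q : (Fin k → ℕ) → Prop} (h : UP A p) (h' : UP A q) :
    UP A (fun v => p v ∧ q v) := by
  refine U.congr (U.mul h h') (fun v => ?_)
  simp only
  by_cases hp : p v
  · by_cases hq : q v
    · rw [ind_true hp, ind_true hq, ind_true ⟨hp, hq⟩]
    · rw [ind_false hq, ind_false (fun h'' : p v ∧ q v => hq h''.2), Nat.mul_zero]
  · rw [ind_false hp, ind_false (fun h'' : p v ∧ q v => hp h''.1), Nat.zero_mul]

theorem UP.or {p q : (Fin k → ℕ) → Prop} (h : UP A p) (h' : UP A q) :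
    UP A (fun v => p v ∨ q v) :=
  ((h.not.and h'.not).not).congr (fun v => by tauto)

theorem UP.imp {p q : (Fin k → ℕ) → Prop} (h : UP A p) (h' : UP A q) :
    UP A (fun v => p v → q v) :=
  ((h.and h'.not).not).congr (fun v => by tauto)

theorem UP.le {f g : (Fin k → ℕ) → ℕ} (hf : U A f) (hg : U A g) : UP A (fun v => f v ≤ g v) := by
  refine U.congr ((U.const 1).sub (hf.sub hg)) (fun v => ?_)
  simp only
  by_cases h : f v ≤ g v
  · rw [ind_true h]; omega
  · rw [ind_false h]; omega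

theorem UP.lt {f g : (Fin k → ℕ) → ℕ} (hf : U A f) (hg : U A g) : UP A (fun v => f v < g v) :=
  (UP.le hf.succ hg).congr (fun _ => Iff.rfl)

theorem UP.eq {f g : (Fin k → ℕ) → ℕ} (hf : U A f) (hg : U A g) : UP A (fun v => f v = g v) :=
  ((UP.le hf hg).and (UP.le hg hf)).congr (fun v => by omega)

theorem UP.reindex {m : ℕ} {p : (Fin k → ℕ) → Prop} (h : UP A p) (ι : Fin k → Fin m) :
    UP A (fun v : Fin m → ℕ => p (fun i => v (ι i))) :=
  U.reindex h ι

theorem UP.ball {p : (Fin (k + 1) → ℕ) → Prop} {n : (Fin k → ℕ) → ℕ} (hp : UP A p)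
    (hn : U A n) : UP A (fun v => ∀ i < n v, p (Fin.cons i v)) := by
  refine U.prec (n := n) (g := fun _ => 1) (s := fun w => w 0 * ind (p (fun j => w j.succ)))
    hn (U.const 1) ((U.proj 0).mul (hp.reindex Fin.succ))
    (H := fun v i => ind (∀ j < i, p (Fin.cons j v))) (fun v => ind_true (fun j hj => ?_))
    (fun v i _ => ?_) (PB.const 1) (fun v i hi => ind_le _)
  · omega
  · simp only [Fin.cons_zero, Fin.cons_succ]
    by_cases h1 : ∀ j < i, p (Fin.cons j v)
    · by_cases h2 : p (Fin.cons i v)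
      · rw [ind_true h1, ind_true h2, ind_true]
        intro j hj
        rcases Nat.lt_succ_iff_lt_or_eq.1 hj with h | h
        · exact h1 j h
        · subst h; exact h2
      · rw [ind_false h2, ind_false (fun h => h2 (h i (Nat.lt_succ_self i))), Nat.mul_zero]
    · rw [ind_false h1, ind_false (fun h => h1 (fun j hj => h j (Nat.lt_succ_of_lt hj))),
        Nat.zero_mul]

theorem UP.bex {p : (Fin (k + 1) → ℕ) → Prop} {n : (Fin k → ℕ) → ℕ} (hp : UP A p)
    (hn : U A n) : UP A (fun v => ∃ i < n v, p (Fin.cons i v)) :=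
  (UP.ball hp.not hn).not.congr (fun v => by push Not; rfl)

open Classical in
theorem U.ite {p : (Fin k → ℕ) → Prop} {f g : (Fin k → ℕ) → ℕ} (hp : UP A p) (hf : U A f)
    (hg : U A g) : U A (fun v => if p v then f v else g v) := by
  refine U.congr ((U.mul hp hf).add (U.mul hp.not hg)) (fun v => ?_)
  simp only
  by_cases h : p v
  · rw [ind_true h, ind_false (not_not.2 h), if_pos h]; ring
  · rw [ind_false h, ind_true h, if_neg h]; ring

/-! ### division and powers -/

theorem U.mod2 : U A (fun v : Fin 2 → ℕ => v 0 % v 1) := by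
  classical
  refine U.prec (n := fun v => v 0) (g := fun _ => 0)
    (s := fun w => if w 0 + 1 = w 3 then 0 else w 0 + 1)
    (U.proj 0) U.zero
    ((U.ite (UP.eq (U.proj 0).succ (U.proj 3)) U.zero (U.proj 0).succ).congr (fun v => by congr))
    (H := fun v i => i % v 1) (fun v => Nat.zero_mod _)
    (fun v i _ => ?_) (PB.proj 0) (fun v i hi => (Nat.mod_le _ _).trans hi)
  simp only [Fin.cons_zero, show (3 : Fin 4) = Fin.succ (Fin.succ 1) from rfl, Fin.cons_succ]
  rcases Nat.eq_zero_or_pos (v 1) with h | h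
  · rw [h, Nat.mod_zero, Nat.mod_zero, if_neg (by omega)]
  · have h1 : i % v 1 < v 1 := Nat.mod_lt _ h
    have h2 : (i + 1) % v 1 = (i % v 1 + 1) % v 1 := by simp [Nat.add_mod]
    rw [h2]
    split_ifs with h3
    · rw [h3, Nat.mod_self]
    · exact Nat.mod_eq_of_lt (by omega)

theorem U.mod {g h : (Fin k → ℕ) → ℕ} (hg : U A g) (hh : U A h) : U A (fun v => g v % h v) :=
  U.comp2 (F := fun a b => a % b) U.mod2 hg hh

theorem U.div2 : U A (fun v : Fin 2 → ℕ => v 0 / v 1) := by
  refine U.prec (n := fun v => v 0) (g := fun _ => 0)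
    (s := fun w => w 0 + ind ((w 1 + 1) % w 3 = 0))
    (U.proj 0) U.zero
    ((U.proj 0).add (UP.eq ((U.proj 1).succ.mod (U.proj 3)) U.zero))
    (H := fun v i => i / v 1) (fun v => Nat.zero_div _)
    (fun v i _ => ?_) (PB.proj 0) (fun v i hi => (Nat.div_le_self _ _).trans hi)
  simp only [Fin.cons_zero, show (3 : Fin 4) = Fin.succ (Fin.succ 1) from rfl, Fin.cons_succ,
    show (1 : Fin 4) = Fin.succ 0 from rfl]
  rw [Nat.succ_div]
  congr 1
  by_cases h : v 1 ∣ i + 1
  · rw [if_pos h, ind_true (Nat.mod_eq_zero_of_dvd h)]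
  · rw [if_neg h, ind_false (fun h' => h (Nat.dvd_of_mod_eq_zero h'))]

theorem U.div {g h : (Fin k → ℕ) → ℕ} (hg : U A g) (hh : U A h) : U A (fun v => g v / h v) :=
  U.comp2 (F := fun a b => a / b) U.div2 hg hh

/-- truncated powers -/
def tp (q n i : ℕ) : ℕ := min (q ^ i) (n + 1)

theorem U.tp2 {q : ℕ} (hq : 1 ≤ q) : U A (fun v : Fin 2 → ℕ => tp q (v 0) (v 1)) := by
  refine U.prec (n := fun v => v 1) (g := fun _ => 1)
    (s := fun w => Min.min (q * w 0) (w 2 + 1))
    (U.proj 1) (U.const 1)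
    (U.min ((U.const q).mul (U.proj 0)) (U.proj 2).succ)
    (H := fun v i => tp q (v 0) i) (fun v => by simp [tp])
    (fun v i _ => ?_) ((PB.proj 0).add (PB.const 1)) (fun v i hi => Nat.min_le_right _ _)
  simp only [Fin.cons_zero, show (2 : Fin 4) = Fin.succ (Fin.succ 0) from rfl, Fin.cons_succ, tp,
    pow_succ]
  have h1 : q * (v 0 + 1) ≥ v 0 + 1 := Nat.le_mul_of_pos_left _ hq
  rcases le_total (q ^ i) (v 0 + 1) with h | h
  · rw [min_eq_left h, mul_comm]
  · rw [min_eq_right h, min_eq_right h1]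
    apply min_eq_right
    calc v 0 + 1 ≤ q ^ i := h
      _ ≤ q ^ i * q := Nat.le_mul_of_pos_right _ hq

theorem U.tp {q : ℕ} (hq : 1 ≤ q) {g h : (Fin k → ℕ) → ℕ} (hg : U A g) (hh : U A h) :
    U A (fun v => tp q (g v) (h v)) :=
  U.comp2 (F := fun a b => OM.tp q a b) (U.tp2 hq) hg hh

/-- digits -/
def dgt (q n i : ℕ) : ℕ := n / q ^ i % q

theorem U.dgt {q : ℕ} (hq : 1 ≤ q) {g h : (Fin k → ℕ) → ℕ} (hg : U A g) (hh : U A h) :
    U A (fun v => dgt q (g v) (h v)) := by
  refine ((hg.div (U.tp hq hg hh)).mod (U.const q)).congr (fun v => ?_)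
  simp only [OM.dgt, OM.tp]
  rcases le_total (q ^ (h v)) (g v + 1) with h1 | h1
  · rw [min_eq_left h1]
  · rw [min_eq_right h1, Nat.div_eq_of_lt (Nat.lt_succ_self _),
      Nat.div_eq_of_lt (by omega)]

/-- truncated fast growing function -/
def ft (q C a n i : ℕ) : ℕ := min (2 * q ^ (C * (i + 1)) + a) (n + 1)

theorem U.ft {q : ℕ} (hq : 1 ≤ q) (C a : ℕ) {g h : (Fin k → ℕ) → ℕ} (hg : U A g) (hh : U A h) :
    U A (fun v => ft q C a (g v) (h v)) := by
  refine (U.min (((U.const 2).mul (U.tp hq hg ((U.const C).mul hh.succ))).add (U.const a))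
    hg.succ).congr (fun v => ?_)
  simp only [OM.ft, OM.tp]
  rcases le_total (q ^ (C * (h v + 1))) (g v + 1) with h1 | h1
  · rw [min_eq_left h1]
  · rw [min_eq_right h1, min_eq_right (by omega), min_eq_right (by omega)]

/-- bounded sums -/
theorem U.sum {t : (Fin (k + 1) → ℕ) → ℕ} {n : (Fin k → ℕ) → ℕ} (ht : U A t) (hn : U A n) :
    U A (fun v => ∑ i ∈ Finset.range (n v), t (Fin.cons i v)) := by
  obtain ⟨c, hc⟩ := ht.bound
  have hnb := hn.bound
  refine U.prec (n := n) (g := fun _ => 0) (s := fun w => w 0 + t (fun j => w j.succ))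
    hn U.zero ((U.proj 0).add (ht.reindex Fin.succ))
    (H := fun v i => ∑ j ∈ Finset.range i, t (Fin.cons j v)) (fun v => rfl)
    (fun v i _ => ?_) (B := fun v => n v * (n v + ∑ i, v i + 2) ^ c) ?_ (fun v i hi => ?_)
  · rw [Finset.sum_range_succ]
    simp only [Fin.cons_zero, Fin.cons_succ]
  · exact hnb.mul (((hnb.add (PB.fsum (fun j => PB.proj j))).add (PB.const 2)).pow c)
  · calc ∑ j ∈ Finset.range i, t (Fin.cons j v)
        ≤ ∑ j ∈ Finset.range i, (n v + ∑ i, v i + 2) ^ c := by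
          apply Finset.sum_le_sum
          intro j hj
          rw [Finset.mem_range] at hj
          refine (hc _).trans ?_
          rw [Fin.sum_cons]
          exact Nat.pow_le_pow_left (by omega) c
      _ = i * (n v + ∑ i, v i + 2) ^ c := by simp
      _ ≤ _ := Nat.mul_le_mul_right _ hi

end Pool.Agent.Helper556.OM
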