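import Pool.Agent.Helper556.Unary

/-!
Closure properties of the class of polynomial time computable functions on unary inputs.
-/

namespace Pool.Agent.Helper556.OM

open Function

/-! ### polynomially bounded functions -/

def PB {k : ℕ} (T : (Fin k → ℕ) → ℕ) : Prop := ∃ c : ℕ, ∀ v, T v ≤ (∑ i, v i + 2) ^ c

variable {k : ℕ}

theorem PB.mono {T T' : (Fin k → ℕ) → ℕ} (h : PB T') (hT : ∀ v, T v ≤ T' v) : PB T := by
  obtain ⟨c, hc⟩ := h
  exact ⟨c, fun v => (hT v).trans (hc v)⟩

theorem PB.const (n : ℕ) : PB (fun _ : Fin k → ℕ => n) := by
  refine ⟨n, fun v => ?_⟩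
  calc n ≤ 2 ^ n := Nat.lt_two_pow_self.le
    _ ≤ _ := Nat.pow_le_pow_left (by omega) n

theorem PB.proj (i : Fin k) : PB (fun v : Fin k → ℕ => v i) := by
  refine ⟨1, fun v => ?_⟩
  have := Finset.single_le_sum (f := v) (fun i _ => Nat.zero_le _) (Finset.mem_univ i)
  simp only [pow_one]
  omega

theorem PB.add {T T' : (Fin k → ℕ) → ℕ} (h : PB T) (h' : PB T') : PB (fun v => T v + T' v) := by
  obtain ⟨c, hc⟩ := h
  obtain ⟨c', hc'⟩ := h'
  refine ⟨max c c' + 1, fun v => ?_⟩
  set S := ∑ i, v i + 2 with hS
  have h1 : S ^ c ≤ S ^ max c c' := Nat.pow_le_pow_right (by omega) (le_max_left _ _)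
  have h2 : S ^ c' ≤ S ^ max c c' := Nat.pow_le_pow_right (by omega) (le_max_right _ _)
  have h3 : S ^ max c c' * 2 ≤ S ^ max c c' * S := Nat.mul_le_mul_left _ (by omega)
  have h4 := hc v
  have h5 := hc' v
  calc T v + T' v ≤ S ^ c + S ^ c' := Nat.add_le_add h4 h5
    _ ≤ S ^ max c c' * 2 := by omega
    _ ≤ S ^ max c c' * S := h3
    _ = S ^ (max c c' + 1) := by rw [pow_succ]

theorem PB.mul {T T' : (Fin k → ℕ) → ℕ} (h : PB T) (h' : PB T') : PB (fun v => T v * T' v) := by
  obtain ⟨c, hc⟩ := h
  obtain ⟨c', hc'⟩ := h'
  refine ⟨c + c', fun v => ?_⟩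
  rw [pow_add]
  exact Nat.mul_le_mul (hc v) (hc' v)

theorem PB.pow {T : (Fin k → ℕ) → ℕ} (h : PB T) (n : ℕ) : PB (fun v => T v ^ n) := by
  induction n with
  | zero => simpa using PB.const 1
  | succ n ih => simpa [pow_succ] using ih.mul h

theorem PB.fsum {m : ℕ} {G : Fin m → (Fin k → ℕ) → ℕ} (h : ∀ j, PB (G j)) :
    PB (fun v => ∑ j, G j v) := by
  induction m with
  | zero => simpa using PB.const 0
  | succ m ih =>
      simp only [Fin.sum_univ_succ]
      exact (h 0).add (ih (fun j => h j.succ))

theorem PB.comp {m : ℕ} {T : (Fin m → ℕ) → ℕ} {G : Fin m → (Fin k → ℕ) → ℕ}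
    (hT : PB T) (h : ∀ j, PB (G j)) : PB (fun v => T (fun j => G j v)) := by
  obtain ⟨c, hc⟩ := hT
  exact (((PB.fsum h).add (PB.const 2)).pow c).mono (fun v => hc _)

theorem PB.cons {T : (Fin (k + 1) → ℕ) → ℕ} {g : (Fin k → ℕ) → ℕ} (hT : PB T) (hg : PB g) :
    PB (fun v => T (Fin.cons (g v) v)) := by
  have h := PB.comp (k := k) (G := fun j v => (Fin.cons (g v) v : Fin (k + 1) → ℕ) j) hT ?_
  · exact h
  · intro j
    refine Fin.cases ?_ (fun i => ?_) j
    · simpa using hg
    · simpa using PB.proj i

/-! ### the class -/

/-- Functions computed in unary in polynomial time with oracle `A`. -/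
def U (A : Set (List Bool)) {k : ℕ} (f : (Fin k → ℕ) → ℕ) : Prop :=
  ∃ (P : (Fin k → ℕ) → ℕ → ℕ → Cmd) (T : (Fin k → ℕ) → ℕ), PB T ∧ ∀ v, f v ≤ T v ∧
    ∀ (e : Fin k → ℕ) (out base : ℕ), (∀ i, e i < base) → out < base → (∀ i, e i ≠ out) →
      ∀ s : St, (∀ i, s (e i) = un (v i)) → s out = [] → (∀ r, base ≤ r → s r = []) →
        EvB A (P e out base) s (update s out (un (f v))) (T v)

variable {A : Set (List Bool)}

theorem U.bound {f : (Fin k → ℕ) → ℕ} (h : U A f) : PB f := by
  obtain ⟨P, T, hT, h⟩ := h
  exact hT.mono (fun v => (h v).1)

theorem U.congr {f g : (Fin k → ℕ) → ℕ} (h : U A f) (hfg : ∀ v, f v = g v) : U A g := by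
  have : f = g := funext hfg
  rwa [← this]

theorem U.zero : U A (fun _ : Fin k → ℕ => 0) := by
  refine ⟨fun _ _ _ => .skip, fun _ => 1, PB.const 1, fun v => ⟨Nat.zero_le _, ?_⟩⟩
  intro e out base he ho hne s hs hout hb
  have h := EvB.skip (A := A) s
  have e1 : update s out (un 0) = s := by
    rw [un_zero, ← hout, update_eq_self]
  rw [e1]
  exact h

theorem U.proj (i : Fin k) : U A (fun v : Fin k → ℕ => v i) := by
  refine ⟨fun e out base => copy (e i) out base, fun v => 7 * v i + 2,
    ((PB.const 7).mul (PB.proj i)).add (PB.const 2), fun v => ⟨by simp only; omega, ?_⟩⟩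
  intro e out base he ho hne s hs hout hb
  exact copy_ev (hne i) (by have := he i; omega) (by omega) (hs i) hout (hb base (le_refl _))

theorem U.reindex {m : ℕ} {f : (Fin k → ℕ) → ℕ} (h : U A f) (ι : Fin k → Fin m) :
    U A (fun v : Fin m → ℕ => f (fun i => v (ι i))) := by
  obtain ⟨P, T, hT, h⟩ := h
  refine ⟨fun e out base => P (fun i => e (ι i)) out base, fun v => T (fun i => v (ι i)), ?_,
    fun v => ⟨(h _).1, ?_⟩⟩
  · exact PB.comp (G := fun i v => v (ι i)) hT (fun j => PB.proj (ι j))
  · intro e out base he ho hne s hs hout hb
    exact (h (fun i => v (ι i))).2 (fun i => e (ι i)) out base (fun i => he _) ho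
      (fun i => hne _) s (fun i => hs _) hout hb

theorem U.letc {f : (Fin (k + 1) → ℕ) → ℕ} {g : (Fin k → ℕ) → ℕ} (hf : U A f) (hg : U A g) :
    U A (fun v => f (Fin.cons (g v) v)) := by
  obtain ⟨Pf, Tf, hTf, hf⟩ := hf
  have hgb := hg.bound
  obtain ⟨Pg, Tg, hTg, hg⟩ := hg
  refine ⟨fun e out base => .seq (Pg e base (base + 1))
    (.seq (Pf (Fin.cons base e) out (base + 1)) (clear base)),
    fun v => Tg v + (Tf (Fin.cons (g v) v) + (2 * g v + 1)), ?_, fun v => ⟨?_, ?_⟩⟩
  · exact hTg.add ((hTf.cons hgb).add (((PB.const 2).mul hgb).add (PB.const 1)))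
  · have := (hf (Fin.cons (g v) v)).1
    simp only
    omega
  · intro e out base he ho hne s hs hout hb
    have h1 := (hg v).2 e base (base + 1) (fun i => by have := he i; omega) (by omega)
      (fun i => by have := he i; omega) s hs (hb base (le_refl _)) (fun r hr => hb r (by omega))
    have h2 := (hf (Fin.cons (g v) v)).2 (Fin.cons base e) out (base + 1) ?_ (by omega) ?_
      (update s base (un (g v))) ?_ ?_ ?_
    · have h3 := clear_ev (A := A) base
        (update (update s base (un (g v))) out (un (f (Fin.cons (g v) v))))
      have h4 := h1.seq (h2.seq h3)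
      have e1 : update (update (update s base (un (g v))) out (un (f (Fin.cons (g v) v)))) base []
        = update s out (un (f (Fin.cons (g v) v))) := by
        funext x
        by_cases hx : x = base
        · subst hx
          rw [update_self, update_of_ne (by omega), hb x (le_refl _)]
        · by_cases hx' : x = out
          · subst hx'
            rw [update_of_ne hx, update_self, update_self]
          · rw [update_of_ne hx, update_of_ne hx', update_of_ne hx, update_of_ne hx']
      have e2 : ((update (update s base (un (g v))) out (un (f (Fin.cons (g v) v)))) base).length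
        = g v := by
        rw [update_of_ne (by omega), update_self, un_length]
      rw [e1, e2] at h4
      exact h4
    · intro i
      refine Fin.cases ?_ (fun j => ?_) i
      · simp
      · have := he j
        simp only [Fin.cons_succ]
        omega
    · intro i
      refine Fin.cases ?_ (fun j => ?_) i
      · simp only [Fin.cons_zero]; omega
      · simpa only [Fin.cons_succ] using hne j
    · intro i
      refine Fin.cases ?_ (fun j => ?_) i
      · simp only [Fin.cons_zero, update_self]
      · have := he j
        simp only [Fin.cons_succ]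
        rw [update_of_ne (by omega), hs j]
    · rw [update_of_ne (by omega), hout]
    · intro r hr
      rw [update_of_ne (by omega), hb r (by omega)]

theorem U.succ {f : (Fin k → ℕ) → ℕ} (hf : U A f) : U A (fun v => f v + 1) := by
  obtain ⟨P, T, hT, h⟩ := hf
  refine ⟨fun e out base => .seq (P e out base) (.push out true), fun v => T v + 1,
    hT.add (PB.const 1), fun v => ⟨by have := (h v).1; simp only; omega, ?_⟩⟩
  intro e out base he ho hne s hs hout hb
  have h1 := (h v).2 e out base he ho hne s hs hout hb
  have h2 := h1.seq (EvB.push (A := A) out true _)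
  rw [update_self, update_idem] at h2
  exact h2

theorem U.const (n : ℕ) : U A (fun _ : Fin k → ℕ => n) := by
  induction n with
  | zero => exact U.zero
  | succ n ih => exact ih.succ

/-- primitive recursion with polynomially bounded values -/
theorem U.prec {n g : (Fin k → ℕ) → ℕ} {s : (Fin (k + 2) → ℕ) → ℕ}
    (hn : U A n) (hg : U A g) (hs : U A s)
    {H : (Fin k → ℕ) → ℕ → ℕ} (H0 : ∀ v, H v 0 = g v)
    (H1 : ∀ v i, i < n v → H v (i + 1) = s (Fin.cons (H v i) (Fin.cons i v)))
    {B : (Fin k → ℕ) → ℕ} (hB : PB B) (hHB : ∀ v, ∀ i ≤ n v, H v i ≤ B v) :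
    U A (fun v => H v (n v)) := by
  have hnb := hn.bound
  obtain ⟨Pn, Tn, hTn, hn'⟩ := hn
  obtain ⟨Pg, Tg, hTg, hg'⟩ := hg
  obtain ⟨Ps, Ts, ⟨cs, hcs⟩, hs'⟩ := hs
  set Ti : (Fin k → ℕ) → ℕ := fun v => (B v + n v + ∑ i, v i + 2) ^ cs with hTi
  have hTiPB : PB Ti := by
    apply PB.pow
    exact ((hB.add hnb).add (PB.fsum (fun j => PB.proj j))).add (PB.const 2)
  refine ⟨fun e out base => .seq (Pn e base (base + 1)) (.seq (Pg e (base + 2) (base + 3))
    (.seq (.loop base (.seq (.pop base) (.seq
      (Ps (Fin.cons (base + 2) (Fin.cons (base + 1) e)) (base + 3) (base + 4))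
      (.seq (clear (base + 2)) (.seq (move (base + 3) (base + 2)) (.push (base + 1) true))))))
    (.seq (clear (base + 1)) (move (base + 2) out)))),
    fun v => B v + (Tn v + (Tg v + ((n v * (Ti v + 5 * B v + 5 + 1) + 1) +
      ((2 * n v + 1) + (3 * B v + 1))))), ?_, fun v => ⟨?_, ?_⟩⟩
  · exact hB.add (hTn.add (hTg.add (((hnb.mul (((hTiPB.add ((PB.const 5).mul hB)).add
      (PB.const 5)).add (PB.const 1))).add (PB.const 1)).add
      ((((PB.const 2).mul hnb).add (PB.const 1)).add
      (((PB.const 3).mul hB).add (PB.const 1))))))
  · have := hHB v (n v) (le_refl _)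
    simp only
    omega
  · intro e out base he ho hne σ hσ hout hb
    have h1 := (hn' v).2 e base (base + 1) (fun i => by have := he i; omega) (by omega)
      (fun i => by have := he i; omega) σ hσ (hb base (le_refl _)) (fun r hr => hb r (by omega))
    have h2 := (hg' v).2 e (base + 2) (base + 3) (fun i => by have := he i; omega) (by omega)
      (fun i => by have := he i; omega) (update σ base (un (n v)))
      (fun i => by have := he i; rw [update_of_ne (by omega), hσ i])
      (by rw [update_of_ne (by omega), hb _ (by omega)])
      (fun r hr => by rw [update_of_ne (by omega), hb _ (by omega)])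
    set I : ℕ → St := fun i => update (update (update σ base (un (n v - i))) (base + 1) (un i))
      (base + 2) (un (H v i)) with hI
    have hI0 : update (update σ base (un (n v))) (base + 2) (un (g v)) = I 0 := by
      funext x
      simp only [hI]
      by_cases hx : x = base + 2
      · subst hx; rw [update_self, update_self, H0]
      · rw [update_of_ne hx, update_of_ne hx]
        by_cases hx' : x = base + 1
        · subst hx'; rw [update_self, update_of_ne (by omega), hb _ (by omega)]; rfl
        · rw [update_of_ne hx']; rfl
    rw [hI0] at h2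
    have h3 := EvB.loop_count (A := A) (r := base) (p := .seq (.pop base) (.seq
      (Ps (Fin.cons (base + 2) (Fin.cons (base + 1) e)) (base + 3) (base + 4))
      (.seq (clear (base + 2)) (.seq (move (base + 3) (base + 2)) (.push (base + 1) true)))))
      (Ti v + 5 * B v + 5) (n v) I ?_ ?_ ?_
    · have h4 := clear_ev (A := A) (base + 1) (I (n v))
      have h5 := move_ev (A := A) (a := base + 2) (b := out) (by omega)
        (s := update (I (n v)) (base + 1) []) (n := H v (n v)) (m := 0) ?_ ?_
      · have h6 := h1.seq (h2.seq (h3.seq (h4.seq h5)))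
        have e1 : update (update (update (I (n v)) (base + 1) []) (base + 2) []) out
          (un (0 + H v (n v))) = update σ out (un (H v (n v))) := by
          funext x
          by_cases hx : x = out
          · subst hx; rw [update_self, update_self, zero_add]
          · rw [update_of_ne hx, update_of_ne hx]
            by_cases hx2 : x = base + 2
            · subst hx2; rw [update_self, hb _ (by omega)]
            · rw [update_of_ne hx2]
              by_cases hx1 : x = base + 1
              · subst hx1; rw [update_self, hb _ (by omega)]
              · rw [update_of_ne hx1]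
                simp only [hI]
                rw [update_of_ne hx2, update_of_ne hx1]
                by_cases hx0 : x = base
                · subst hx0; rw [update_self, Nat.sub_self, hb _ (le_refl _)]; rfl
                · rw [update_of_ne hx0]
        rw [e1] at h6
        refine h6.mono ?_
        have e2 : ((I (n v)) (base + 1)).length = n v := by
          simp only [hI]
          rw [update_of_ne (by omega), update_self, un_length]
        rw [e2]
        have e3 := hHB v (n v) (le_refl _)
        simp only
        omega
      · rw [update_of_ne (by omega)]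
        simp only [hI]
        rw [update_self]
      · rw [update_of_ne (by omega)]
        simp only [hI]
        rw [update_of_ne (by omega), update_of_ne (by omega), update_of_ne (by omega), hout]; rfl
    · intro i hi
      simp only [hI]
      rw [update_of_ne (by omega), update_of_ne (by omega), update_self]
      exact un_ne (by omega)
    · simp only [hI]
      rw [update_of_ne (by omega), update_of_ne (by omega), update_self, Nat.sub_self]; rfl
    · intro i hi
      have p1 := EvB.pop (A := A) base (I i)
      have eI : (I i) base = un (n v - i) := by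
        simp only [hI]
        rw [update_of_ne (by omega), update_of_ne (by omega), update_self]
      rw [eI, un_tail] at p1
      set s1 : St := update (I i) base (un (n v - i - 1)) with hs1
      have ex : ∀ x, s1 x = if x = base + 2 then un (H v i) else if x = base + 1 then un i else
          if x = base then un (n v - i - 1) else σ x := by
        intro x
        simp only [hs1, hI, update_apply]
        split_ifs <;> first | rfl | omega
      have p2 := (hs' (Fin.cons (H v i) (Fin.cons i v))).2
        (Fin.cons (base + 2) (Fin.cons (base + 1) e)) (base + 3) (base + 4)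
        (by
          intro j
          refine Fin.cases ?_ (fun j => ?_) j
          · simp
          · refine Fin.cases ?_ (fun j => ?_) j
            · simp
            · have := he j
              simp only [Fin.cons_succ]; omega) (by omega)
        (by
          intro j
          refine Fin.cases ?_ (fun j => ?_) j
          · simp
          · refine Fin.cases ?_ (fun j => ?_) j
            · simp
            · have := he j
              simp only [Fin.cons_succ]; omega)
        s1
        (by
          intro j
          refine Fin.cases ?_ (fun j => ?_) j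
          · simp [ex]
          · refine Fin.cases ?_ (fun j => ?_) j
            · simp [ex]
            · have := he j
              simp only [Fin.cons_succ, ex]
              rw [if_neg (by omega), if_neg (by omega), if_neg (by omega), hσ])
        (by rw [ex, if_neg (by omega), if_neg (by omega), if_neg (by omega), hb _ (by omega)])
        (by
          intro r hr
          rw [ex, if_neg (by omega), if_neg (by omega), if_neg (by omega), hb _ (by omega)])
      rw [← H1 v i hi] at p2
      set s2 : St := update s1 (base + 3) (un (H v (i + 1))) with hs2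
      have p3 := clear_ev (A := A) (base + 2) s2
      have p4 := move_ev (A := A) (a := base + 3) (b := base + 2) (by omega)
        (s := update s2 (base + 2) []) (n := H v (i + 1)) (m := 0)
        (by rw [update_of_ne (by omega), hs2, update_self]) (by rw [update_self]; rfl)
      have p5 := EvB.push (A := A) (base + 1) true (update (update (update s2 (base + 2) [])
        (base + 3) []) (base + 2) (un (0 + H v (i + 1))))
      have p6 := p1.seq (p2.seq (p3.seq (p4.seq p5)))
      have e1 : update (update (update (update s2 (base + 2) [])
        (base + 3) []) (base + 2) (un (0 + H v (i + 1)))) (base + 1)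
        (true :: (update (update (update s2 (base + 2) [])
        (base + 3) []) (base + 2) (un (0 + H v (i + 1)))) (base + 1)) = I (i + 1) := by
        funext x
        simp only [hs2, update_apply, ex, hI]
        split_ifs <;> first
          | rfl
          | omega
          | (simp only [zero_add])
          | (rw [hb _ (by omega)])
      rw [e1] at p6
      refine p6.mono ?_
      have e2 : (s2 (base + 2)).length = H v i := by
        rw [hs2, update_of_ne (by omega), ex, if_pos rfl, un_length]
      rw [e2]
      have b1 := hHB v i (by omega)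
      have b2 := hHB v (i + 1) (by omega)
      have b3 : Ts (Fin.cons (H v i) (Fin.cons i v)) ≤ Ti v := by
        refine (hcs _).trans ?_
        simp only [hTi, Fin.sum_univ_succ, Fin.cons_zero, Fin.cons_succ]
        refine Nat.pow_le_pow_left ?_ cs
        omega
      omega

end Pool.Agent.Helper556.OM
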