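import Pool.Agent.Helper556.Cmd

/-!
Functions on natural numbers computed in unary by structured programs in polynomial time.
-/

namespace Pool.Agent.Helper556.OM

open Function

def un (n : ℕ) : List Bool := List.replicate n true

@[simp] theorem un_zero : un 0 = [] := rfl

theorem un_succ (n : ℕ) : un (n + 1) = true :: un n := rfl

@[simp] theorem un_tail (n : ℕ) : (un n).tail = un (n - 1) := by
  cases n <;> rfl

@[simp] theorem un_length (n : ℕ) : (un n).length = n := by simp [un]

theorem un_cons (n : ℕ) : true :: un n = un (n + 1) := rfl

theorem un_ne {n : ℕ} (h : n ≠ 0) : un n ≠ [] := by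
  cases n with
  | zero => exact absurd rfl h
  | succ n => simp [un_succ]

/-! ### bounded evaluation -/

def EvB (A : Set (List Bool)) (c : Cmd) (s s' : St) (T : ℕ) : Prop := ∃ t ≤ T, Ev A c s s' t

variable {A : Set (List Bool)}

theorem EvB.mono {c : Cmd} {s s' : St} {T T' : ℕ} (h : EvB A c s s' T) (hT : T ≤ T') :
    EvB A c s s' T' := by
  obtain ⟨t, ht, h⟩ := h
  exact ⟨t, ht.trans hT, h⟩

theorem EvB.skip (s : St) : EvB A .skip s s 1 := ⟨1, le_refl _, Ev.skip s⟩

theorem EvB.push (r : ℕ) (b : Bool) (s : St) :
    EvB A (.push r b) s (update s r (b :: s r)) 1 := ⟨1, le_refl _, Ev.push r b s⟩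

theorem EvB.pop (r : ℕ) (s : St) :
    EvB A (.pop r) s (update s r (s r).tail) 1 := ⟨1, le_refl _, Ev.pop r s⟩

theorem EvB.seq {p q : Cmd} {s s' s'' : St} {T T' : ℕ} (h : EvB A p s s' T)
    (h' : EvB A q s' s'' T') : EvB A (.seq p q) s s'' (T + T') := by
  obtain ⟨t, ht, h⟩ := h
  obtain ⟨t', ht', h'⟩ := h'
  exact ⟨t + t', by omega, h.seq h'⟩

theorem EvB.brn {r : ℕ} {pn pf pt : Cmd} {s s' : St} {T : ℕ} (h0 : s r = [])
    (h : EvB A pn s s' T) : EvB A (.br r pn pf pt) s s' (T + 1) := by
  obtain ⟨t, ht, h⟩ := h
  exact ⟨t + 1, by omega, Ev.brn (by simp [h0]) h⟩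

theorem EvB.brt {r : ℕ} {pn pf pt : Cmd} {s s' : St} {T : ℕ} {l : List Bool}
    (h0 : s r = true :: l)
    (h : EvB A pt s s' T) : EvB A (.br r pn pf pt) s s' (T + 1) := by
  obtain ⟨t, ht, h⟩ := h
  exact ⟨t + 1, by omega, Ev.brt (by simp [h0]) h⟩

theorem EvB.brf {r : ℕ} {pn pf pt : Cmd} {s s' : St} {T : ℕ} {l : List Bool}
    (h0 : s r = false :: l)
    (h : EvB A pf s s' T) : EvB A (.br r pn pf pt) s s' (T + 1) := by
  obtain ⟨t, ht, h⟩ := h
  exact ⟨t + 1, by omega, Ev.brf (by simp [h0]) h⟩

theorem EvB.loop_count {r : ℕ} {p : Cmd} (T : ℕ) : ∀ (n : ℕ) (I : ℕ → St)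
    (_ : ∀ i < n, I i r ≠ []) (_ : I n r = [])
    (_ : ∀ i < n, EvB A p (I i) (I (i + 1)) T),
    EvB A (.loop r p) (I 0) (I n) (n * (T + 1) + 1)
  | 0, I, _, h0, _ => ⟨1, by omega, Ev.loopn h0⟩
  | n + 1, I, hne, h0, hs => by
      obtain ⟨t', ht', h'⟩ := EvB.loop_count T n (fun i => I (i + 1))
        (fun i hi => hne (i + 1) (by omega)) h0 (fun i hi => hs (i + 1) (by omega))
      obtain ⟨t, ht, h⟩ := hs 0 (by omega)
      refine ⟨t + t' + 1, ?_, Ev.loopc (hne 0 (by omega)) h h'⟩
      have : (n + 1) * (T + 1) = n * (T + 1) + (T + 1) := by ring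
      omega

/-! ### basic programs -/

def clear (a : ℕ) : Cmd := .loop a (.pop a)

theorem clear_ev (a : ℕ) (s : St) :
    EvB A (clear a) s (update s a []) (2 * (s a).length + 1) := by
  have h := EvB.loop_count (A := A) (r := a) (p := .pop a) 1 (s a).length
    (fun i => update s a ((s a).drop i)) ?_ ?_ ?_
  · have e0 : update s a ((s a).drop 0) = s := by simp
    have e1 : update s a ((s a).drop (s a).length) = update s a [] := by simp
    simp only [e0, e1] at h
    exact h.mono (by omega)
  · intro i hi
    simp only [update_self, ne_eq, List.drop_eq_nil_iff]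
    omega
  · simp
  · intro i hi
    have := EvB.pop (A := A) a (update s a ((s a).drop i))
    simpa [update_idem, List.tail_drop] using this

def move (a b : ℕ) : Cmd := .loop a (.seq (.pop a) (.push b true))

theorem move_ev {a b : ℕ} (hab : a ≠ b) {s : St} {n m : ℕ} (ha : s a = un n)
    (hb : s b = un m) :
    EvB A (move a b) s (update (update s a []) b (un (m + n))) (3 * n + 1) := by
  have h := EvB.loop_count (A := A) (r := a) (p := .seq (.pop a) (.push b true)) 2 n
    (fun i => update (update s a (un (n - i))) b (un (m + i))) ?_ ?_ ?_
  · have e0 : update (update s a (un (n - 0))) b (un (m + 0)) = s := by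
      funext x
      simp only [update_apply]
      split_ifs with h1 h2
      · subst h1; simp [hb]
      · subst h2; simp [ha]
      · rfl
    have e1 : update (update s a (un (n - n))) b (un (m + n))
      = update (update s a []) b (un (m + n)) := by simp
    simp only [e0, e1] at h
    exact h.mono (by omega)
  · intro i hi
    simp only [update_of_ne hab, update_self]
    exact un_ne (by omega)
  · simp [update_of_ne hab]
  · intro i hi
    have h1 := EvB.pop (A := A) a (update (update s a (un (n - i))) b (un (m + i)))
    have h2 := EvB.push (A := A) b true (update (update (update s a (un (n - i))) b (un (m + i)))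
      a ((update (update s a (un (n - i))) b (un (m + i))) a).tail)
    have h3 := h1.seq h2
    have e : update (update (update (update s a (un (n - i))) b (un (m + i)))
      a ((update (update s a (un (n - i))) b (un (m + i))) a).tail) b (true ::
      (update (update (update s a (un (n - i))) b (un (m + i)))
      a ((update (update s a (un (n - i))) b (un (m + i))) a).tail) b)
      = update (update s a (un (n - (i + 1)))) b (un (m + (i + 1))) := by
      funext x
      by_cases hx : x = b
      · subst hx
        simp only [update_self, update_of_ne hab.symm]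
        rfl
      · by_cases hx' : x = a
        · subst hx'
          simp only [update_of_ne hx, update_self, un_tail]
          rfl
        · simp only [update_of_ne hx, update_of_ne hx']
    rw [e] at h3
    exact h3

def move2 (a b c : ℕ) : Cmd := .loop a (.seq (.pop a) (.seq (.push b true) (.push c true)))

theorem move2_ev {a b c : ℕ} (hab : a ≠ b) (hac : a ≠ c) (hbc : b ≠ c) {s : St} {n m l : ℕ}
    (ha : s a = un n) (hb : s b = un m) (hc : s c = un l) :
    EvB A (move2 a b c) s (update (update (update s a []) b (un (m + n))) c (un (l + n)))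
      (4 * n + 1) := by
  have h := EvB.loop_count (A := A) (r := a)
    (p := .seq (.pop a) (.seq (.push b true) (.push c true))) 3 n
    (fun i => update (update (update s a (un (n - i))) b (un (m + i))) c (un (l + i))) ?_ ?_ ?_
  · have e0 : update (update (update s a (un (n - 0))) b (un (m + 0))) c (un (l + 0)) = s := by
      funext x
      simp only [update_apply]
      split_ifs with h1 h2 h3
      · subst h1; simp [hc]
      · subst h2; simp [hb]
      · subst h3; simp [ha]
      · rfl
    have e1 : update (update (update s a (un (n - n))) b (un (m + n))) c (un (l + n))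
      = update (update (update s a []) b (un (m + n))) c (un (l + n)) := by simp
    simp only [e0, e1] at h
    exact h.mono (by omega)
  · intro i hi
    simp only [update_of_ne hab, update_of_ne hac, update_self]
    exact un_ne (by omega)
  · simp [update_of_ne hab, update_of_ne hac]
  · intro i hi
    set s0 : St := update (update (update s a (un (n - i))) b (un (m + i))) c (un (l + i))
      with hs0
    have h1 := EvB.pop (A := A) a s0
    have h2 := EvB.push (A := A) b true (update s0 a (s0 a).tail)
    have h3 := EvB.push (A := A) c true (update (update s0 a (s0 a).tail) b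
      (true :: (update s0 a (s0 a).tail) b))
    have h4 := h1.seq (h2.seq h3)
    have e : (update (update (update s0 a (s0 a).tail) b
      (true :: (update s0 a (s0 a).tail) b)) c (true :: (update (update s0 a (s0 a).tail) b
      (true :: (update s0 a (s0 a).tail) b)) c))
      = update (update (update s a (un (n - (i + 1)))) b (un (m + (i + 1)))) c
        (un (l + (i + 1))) := by
      funext x
      by_cases hx : x = c
      · subst hx
        simp only [hs0, update_self, update_of_ne hac.symm, update_of_ne hbc.symm]
        rfl
      · by_cases hx' : x = b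
        · subst hx'
          simp only [hs0, update_of_ne hx, update_self, update_of_ne hab.symm]
          rfl
        · by_cases hx'' : x = a
          · subst hx''
            simp only [hs0, update_of_ne hx, update_of_ne hx', update_self, un_tail]
            rfl
          · simp only [hs0, update_of_ne hx, update_of_ne hx', update_of_ne hx'']
    rw [e] at h4
    exact h4

def copy (a out tmp : ℕ) : Cmd := .seq (move a tmp) (move2 tmp a out)

theorem copy_ev {a out tmp : ℕ} (h1 : a ≠ out) (h2 : a ≠ tmp) (h3 : out ≠ tmp) {s : St} {n : ℕ}
    (ha : s a = un n) (ho : s out = []) (ht : s tmp = []) :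
    EvB A (copy a out tmp) s (update s out (un n)) (7 * n + 2) := by
  have e1 := move_ev (A := A) h2 (s := s) (n := n) (m := 0) ha ht
  have e2 := move2_ev (A := A) (a := tmp) (b := a) (c := out) h2.symm h3.symm h1
    (s := update (update s a []) tmp (un (0 + n))) (n := n) (m := 0) (l := 0)
    (by simp) (by simp [update_of_ne h2]) (by simp [update_of_ne h3, update_of_ne h1.symm, ho])
  have e3 := e1.seq e2
  have e : update (update (update (update (update s a []) tmp (un (0 + n))) tmp []) a
      (un (0 + n))) out (un (0 + n)) = update s out (un n) := by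
    funext x
    by_cases hx : x = out
    · subst hx; simp
    · by_cases hx' : x = a
      · subst hx'; simp [update_of_ne hx, ha]
      · by_cases hx'' : x = tmp
        · subst hx''; simp [update_of_ne hx, update_of_ne hx', ht]
        · simp only [update_of_ne hx, update_of_ne hx', update_of_ne hx'']
  rw [e] at e3
  exact e3.mono (by omega)

end Pool.Agent.Helper556.OM
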