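import Pool.Agent.Helper556.Digits

/-!
The linear algebra: no subspace is simple.
-/

namespace Pool.Agent.Helper556.OM

open Function

variable {A : Set (List Bool)} {F : Type} [Field F] [Fintype F]

/-- the positions that are not leading positions of vectors of `S` -/
def KV (S : Submodule F (ℕ →₀ F)) : Set ℕ :=
  {κ | ∀ m ∈ S, (∀ i, κ < i → m i = 0) → m κ = 0}

omit [Fintype F] in
theorem eq_zero_of_KV {S : Submodule F (ℕ →₀ F)} {v : ℕ →₀ F} (hv : v ∈ S)
    (h : ∀ i, v i ≠ 0 → i ∈ KV S) : v = 0 := by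
  by_contra hne
  have hs : v.support.Nonempty := Finsupp.support_nonempty_iff.2 hne
  have h1 := Finset.max'_mem _ hs
  rw [Finsupp.mem_support_iff] at h1
  apply h1
  refine h _ h1 v hv (fun i hi => ?_)
  by_contra h2
  have := Finset.le_max' _ i (Finsupp.mem_support_iff.2 h2)
  omega

omit [Fintype F] in
theorem KV_infinite {S : Submodule F (ℕ →₀ F)} (hS : ¬ FiniteDimensional F ((ℕ →₀ F) ⧸ S)) :
    (KV S).Infinite := by
  intro hfin
  apply hS
  set T : Submodule F (ℕ →₀ F) :=
    Submodule.span F ((fun κ => Finsupp.single κ (1 : F)) '' KV S) with hT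
  have hTfin : Module.Finite F T :=
    Module.Finite.iff_fg.2 (Submodule.fg_span (hfin.image _))
  have key : ∀ (N : ℕ) (v : ℕ →₀ F), (∀ i, N ≤ i → v i = 0) → v ∈ S ⊔ T := by
    intro N
    induction N with
    | zero =>
        intro v hv
        have : v = 0 := by
          ext i
          exact hv i (Nat.zero_le _)
        rw [this]
        exact Submodule.zero_mem _
    | succ N ih =>
        intro v hv
        by_cases hN : N ∈ KV S
        · have h1 : v - v N • Finsupp.single N (1 : F) ∈ S ⊔ T := by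
            apply ih
            intro i hi
            rcases Nat.eq_or_lt_of_le hi with h | h
            · subst h
              simp
            · rw [Finsupp.sub_apply, hv i h, Finsupp.smul_apply, Finsupp.single_eq_of_ne (by omega)]
              simp
          have h2 : v N • Finsupp.single N (1 : F) ∈ S ⊔ T := by
            apply Submodule.smul_mem
            apply Submodule.mem_sup_right
            apply Submodule.subset_span
            exact ⟨N, hN, rfl⟩
          have h3 := Submodule.add_mem _ h1 h2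
          rwa [sub_add_cancel] at h3
        · simp only [KV, Set.mem_ofPred_eq, not_forall] at hN
          obtain ⟨m, hm, hm1, hm2⟩ := hN
          have h1 : v - (v N / m N) • m ∈ S ⊔ T := by
            apply ih
            intro i hi
            rcases Nat.eq_or_lt_of_le hi with h | h
            · subst h
              rw [Finsupp.sub_apply, Finsupp.smul_apply, smul_eq_mul, div_mul_cancel₀ _ hm2,
                sub_self]
            · rw [Finsupp.sub_apply, hv i h, Finsupp.smul_apply, hm1 i h]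
              simp
          have h2 : (v N / m N) • m ∈ S ⊔ T :=
            Submodule.smul_mem _ _ (Submodule.mem_sup_left hm)
          have h3 := Submodule.add_mem _ h1 h2
          rwa [sub_add_cancel] at h3
  have hsurj : Function.Surjective (S.mkQ ∘ₗ T.subtype) := by
    intro y
    obtain ⟨v, rfl⟩ := S.mkQ_surjective y
    obtain ⟨N, hN⟩ := exists_bound v
    obtain ⟨s, hs, t, ht, hst⟩ := Submodule.mem_sup.1 (key N v hN)
    refine ⟨⟨t, ht⟩, ?_⟩
    simp only [LinearMap.coe_comp, Submodule.coe_subtype, comp_apply]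
    rw [← sub_eq_zero, ← map_sub, Submodule.mkQ_apply, Submodule.Quotient.mk_eq_zero, ← hst]
    have : t - (s + t) = -s := by abel
    rw [this]
    exact S.neg_mem hs
  exact Module.Finite.of_surjective _ hsurj

theorem KV_iff (φ : F ≃ Fin (Fintype.card F)) (h0 : (φ 0 : ℕ) = 0) (S : Submodule F (ℕ →₀ F))
    (κ : ℕ) : κ ∈ KV S ↔ ∀ n', Fintype.card F ^ κ ≤ n' → n' < Fintype.card F ^ (κ + 1) →
      un n' ∉ codes φ S := by
  have hq := two_le_card (F := F)
  constructor
  · rintro hκ n' h1 h2 ⟨m, hm, hn⟩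
    have hn' : n' = code φ m := un_inj hn
    subst hn'
    have h3 : ∀ i, κ < i → m i = 0 := by
      intro i hi
      by_contra hne
      have := pow_le_code φ h0 hne
      have h4 : Fintype.card F ^ (κ + 1) ≤ Fintype.card F ^ i :=
        Nat.pow_le_pow_right (by omega) hi
      omega
    have h5 := hκ m hm h3
    have h6 := code_lt φ h0 (v := m) (N := κ) (fun i hi => by
      rcases Nat.eq_or_lt_of_le hi with h | h
      · rw [← h]; exact h5
      · exact h3 i h)
    omega
  · intro h m hm h1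
    by_contra hne
    refine h (code φ m) (pow_le_code φ h0 hne) (code_lt φ h0 (fun i hi => h1 i hi)) ?_
    exact (mem_codes φ h0 S m).2 hm

/-- the fast growing function -/
def fn (q C a κ : ℕ) : ℕ := 2 * q ^ (C * (κ + 1)) + a

theorem fn_lt {q C : ℕ} (hq : 2 ≤ q) (hC : 1 ≤ C) (a κ : ℕ) : κ < fn q C a κ := by
  have h1 : κ + 1 ≤ C * (κ + 1) := Nat.le_mul_of_pos_left _ hC
  have h2 : C * (κ + 1) < q ^ (C * (κ + 1)) := Nat.lt_pow_self (by omega)
  simp only [fn]
  omega

theorem fn_inj {q C : ℕ} (hq : 2 ≤ q) (hC : 1 ≤ C) (a : ℕ) : Injective (fn q C a) := by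
  intro x y h
  simp only [fn] at h
  have h1 : q ^ (C * (x + 1)) = q ^ (C * (y + 1)) := by omega
  have h2 := Nat.pow_right_injective hq h1
  have h3 := Nat.eq_of_mul_eq_mul_left (by omega) h2
  omega

theorem fn_mod {a : ℕ} (ha : a < 2) (q C κ : ℕ) : fn q C a κ % 2 = a := by
  simp only [fn]
  omega

theorem dgt_ft {q C : ℕ} (hq : 2 ≤ q) (a n κ : ℕ) :
    dgt q n (ft q C a n κ) = dgt q n (fn q C a κ) := by
  simp only [ft, fn]
  rcases le_total (2 * q ^ (C * (κ + 1)) + a) (n + 1) with h | h
  · rw [min_eq_left h]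
  · rw [min_eq_right h]
    have h1 : n < q ^ (n + 1) := by
      have : n + 1 < q ^ (n + 1) := Nat.lt_pow_self (by omega)
      omega
    rw [dgt_zero_of_lt h1, dgt_zero_of_lt]
    exact h1.trans_le (Nat.pow_le_pow_right (by omega) h)

/-- the index set of the subspace `E` -/
def idx (S : Submodule F (ℕ →₀ F)) (C a b n0 : ℕ) : Set ℕ :=
  {i | ∃ κ, κ ∈ KV S ∧ κ % 2 = b ∧ n0 ≤ κ ∧ i = fn (Fintype.card F) C a κ}

/-- the subspace `E` -/
def E (S : Submodule F (ℕ →₀ F)) (C a b n0 : ℕ) : Submodule F (ℕ →₀ F) :=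
  Finsupp.supported F F (idx S C a b n0)

theorem mem_E (S : Submodule F (ℕ →₀ F)) (C a b n0 : ℕ) (v : ℕ →₀ F) :
    v ∈ E S C a b n0 ↔ ∀ i, v i ≠ 0 → i ∈ idx S C a b n0 := by
  rw [E, Finsupp.mem_supported]
  constructor
  · intro h i hi
    exact h (Finsupp.mem_support_iff.2 hi)
  · intro h i hi
    exact h i (Finsupp.mem_support_iff.1 hi)

section

variable (φ : F ≃ Fin (Fintype.card F)) (h0 : (φ 0 : ℕ) = 0) (S : Submodule F (ℕ →₀ F))
  (M : Machine) (d : ℕ)
  (hM : ∀ (x : List Bool) (w : ℕ → Bool), M.Halted (M.run A (x.length ^ d + d) w (M.init x)))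
  (hL : ∀ x : List Bool, x ∈ codes φ S ↔
      ∃ w : ℕ → Bool, M.Accepts (M.run A (x.length ^ d + d) w (M.init x)))
  (a b n0 : ℕ)

include h0 hL

theorem PT_iff (v : ℕ →₀ F) {i : ℕ} (hi : v i ≠ 0) :
    PT A M d (Fintype.card F) (d + 1) a b n0 (code φ v) i ↔ i ∈ idx S (d + 1) a b n0 := by
  have hq := two_le_card (F := F)
  have hn := pow_le_code φ h0 hi
  have hin : i < Fintype.card F ^ i := Nat.lt_pow_self (by omega)
  constructor
  · rintro ⟨κ, hκi, he, hb, hn0, hKT⟩
    have he' : i = fn (Fintype.card F) (d + 1) a κ := by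
      simp only [ft] at he
      simp only [fn]
      omega
    refine ⟨κ, ?_, hb, hn0, he'⟩
    rw [KV_iff φ h0]
    rw [KT_iff M d (codes φ S) hL hq a] at hKT
    · exact hKT
    · rw [he'] at hn
      exact hn
  · rintro ⟨κ, hκ, hb, hn0, he⟩
    refine ⟨κ, ?_, ?_, hb, hn0, ?_⟩
    · rw [he]
      exact fn_lt hq (by omega) a κ
    · simp only [fn] at he
      simp only [ft]
      omega
    · rw [KT_iff M d (codes φ S) hL hq a, ← KV_iff φ h0]
      · exact hκ
      · rw [he] at hn
        exact hn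

theorem ETest_iff (v : ℕ →₀ F) :
    ETest A M d (Fintype.card F) (d + 1) a b n0 (code φ v) ↔ v ∈ E S (d + 1) a b n0 := by
  have hq := two_le_card (F := F)
  rw [mem_E]
  constructor
  · intro h i hi
    have hn := pow_le_code φ h0 hi
    have hin : i < Fintype.card F ^ i := Nat.lt_pow_self (by omega)
    rw [← PT_iff φ h0 S M d hL a b n0 v hi]
    apply h i (by omega)
    rw [dgt_code φ h0, Ne, φ_eq_zero φ h0]
    exact hi
  · intro h i _ hd
    rw [dgt_code φ h0, Ne, φ_eq_zero φ h0] at hd
    rw [PT_iff φ h0 S M d hL a b n0 v hd]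
    exact h i hd

include hM in
theorem E_np : IsNP A φ (E S (d + 1) a b n0) := by
  have hq := two_le_card (F := F)
  have h1 := InNP.reduce (rE_u M d hM (q := Fintype.card F) (by omega) (d + 1) a b n0)
    (InNP.univ (A := A))
  have e : codes φ (E S (d + 1) a b n0) = {x | ∃ n, x = un n ∧ ∃ a',
      rE A M d (Fintype.card F) (d + 1) a b n0 n = a' + 1 ∧ un a' ∈ Set.univ} := by
    ext x
    constructor
    · rintro ⟨v, hv, rfl⟩
      refine ⟨code φ v, rfl, 0, ?_, trivial⟩
      exact ind_true ((ETest_iff φ h0 S M d hL a b n0 v).2 hv)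
    · rintro ⟨n, rfl, a', ha', -⟩
      obtain ⟨v, rfl⟩ := exists_code φ h0 n
      refine ⟨v, ?_, rfl⟩
      rw [← ETest_iff φ h0 S M d hL a b n0 v]
      by_contra hne
      rw [rE, ind_false hne] at ha'
      omega
  rw [IsNP, e]
  exact h1

/-- the shift map -/
noncomputable def Lm (F : Type) [Field F] [Fintype F] (C a : ℕ) (hC : 1 ≤ C) :
    (ℕ →₀ F) →ₗ[F] (ℕ →₀ F) :=
  Finsupp.lcomapDomain (fn (Fintype.card F) C a) (fn_inj (two_le_card (F := F)) hC a)

omit hL h0 in
theorem Lm_apply (C a : ℕ) (hC : 1 ≤ C) (m : ℕ →₀ F) (κ : ℕ) :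
    Lm F C a hC m κ = m (fn (Fintype.card F) C a κ) := rfl

end

end Pool.Agent.Helper556.OM
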